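import Pool.Agent.V11176.NCB.Poset

set_option autoImplicit false

open Finset

namespace V11176.NCB

theorem exists_det_ne {P : Set (ℝ × ℝ)} (h : ¬ Collinear ℝ P) :
    ∃ a ∈ P, ∃ b ∈ P, ∃ c ∈ P, det a b c ≠ 0 := by
  by_contra hcon
  push Not at hcon
  apply h
  rcases P.eq_empty_or_nonempty with rfl | ⟨a, ha⟩
  · exact collinear_empty ℝ _
  by_cases hb : ∃ b ∈ P, b ≠ a
  · obtain ⟨b, hb, hba⟩ := hb
    rw [collinear_iff_of_mem ha]
    refine ⟨b - a, ?_⟩
    intro c hc
    obtain ⟨s, hs⟩ := param (Ne.symm hba) (hcon a ha b hb c hc)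
    refine ⟨s, ?_⟩
    rw [hs, vadd_eq_add]
    exact add_comm _ _
  · push Not at hb
    rw [collinear_iff_of_mem ha]
    refine ⟨0, ?_⟩
    intro c hc
    refine ⟨0, ?_⟩
    rw [hb c hc]
    simp

theorem supp_of_frontier {P : Set (ℝ × ℝ)} (h : ¬ Collinear ℝ P)
    (hfr : P ⊆ frontier (convexHull ℝ P)) :
    ∀ b ∈ P, ∃ u : ℝ × ℝ, u ≠ 0 ∧ ∀ w ∈ P, u.1 * (w.1 - b.1) + u.2 * (w.2 - b.2) ≤ 0 := by
  obtain ⟨a, ha, b, hb, c, hc, habc⟩ := exists_det_ne h
  have hspan : affineSpan ℝ P = ⊤ := by
    rw [eq_top_iff]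
    intro w _
    have ha' : a ∈ affineSpan ℝ P := subset_affineSpan ℝ P ha
    have hb' : b ∈ affineSpan ℝ P := subset_affineSpan ℝ P hb
    have hc' : c ∈ affineSpan ℝ P := subset_affineSpan ℝ P hc
    have h1 : b -ᵥ a ∈ (affineSpan ℝ P).direction := AffineSubspace.vsub_mem_direction hb' ha'
    have h2 : c -ᵥ a ∈ (affineSpan ℝ P).direction := AffineSubspace.vsub_mem_direction hc' ha'
    have h3 := (affineSpan ℝ P).direction.add_mem
      ((affineSpan ℝ P).direction.smul_mem (det a w c / det a b c) h1)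
      ((affineSpan ℝ P).direction.smul_mem (det a b w / det a b c) h2)
    have h4 := AffineSubspace.vadd_mem_of_mem_direction h3 ha'
    have h5 : ((det a w c / det a b c) • (b -ᵥ a) + (det a b w / det a b c) • (c -ᵥ a)) +ᵥ a = w := by
      have h6 : det a w c * (b.1 - a.1) + det a b w * (c.1 - a.1) = det a b c * (w.1 - a.1) := by
        unfold det; ring
      have h7 : det a w c * (b.2 - a.2) + det a b w * (c.2 - a.2) = det a b c * (w.2 - a.2) := by
        unfold det; ring
      ext
      · simp only [vsub_eq_sub, vadd_eq_add, Prod.fst_add, Prod.smul_fst, Prod.fst_sub, smul_eq_mul]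
        field_simp
        linear_combination h6
      · simp only [vsub_eq_sub, vadd_eq_add, Prod.snd_add, Prod.smul_snd, Prod.snd_sub, smul_eq_mul]
        field_simp
        linear_combination h7
    rw [h5] at h4
    exact h4
  have hint : (interior (convexHull ℝ P)).Nonempty :=
    interior_convexHull_nonempty_iff_affineSpan_eq_top.2 hspan
  intro x hx
  have hx2 : x ∉ interior (convexHull ℝ P) := (hfr hx).2
  obtain ⟨f, hf⟩ := geometric_hahn_banach_open_point (convex_convexHull ℝ P).interior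
    isOpen_interior hx2
  have hfw : ∀ w : ℝ × ℝ, f w = f (1, 0) * w.1 + f (0, 1) * w.2 := by
    intro w
    have : w = w.1 • ((1 : ℝ), (0 : ℝ)) + w.2 • ((0 : ℝ), (1 : ℝ)) := by ext <;> simp
    conv_lhs => rw [this]
    rw [map_add, map_smul, map_smul, smul_eq_mul, smul_eq_mul]
    ring
  refine ⟨(f (1, 0), f (0, 1)), ?_, ?_⟩
  · intro h0
    rw [Prod.mk_eq_zero] at h0
    obtain ⟨y, hy⟩ := hint
    have := hf y hy
    rw [hfw y, hfw x, h0.1, h0.2] at this
    simp at this
  · intro w hw
    have h1 : convexHull ℝ P ⊆ {w | f w ≤ f x} := by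
      calc convexHull ℝ P ⊆ closure (convexHull ℝ P) := subset_closure
        _ = closure (interior (convexHull ℝ P)) :=
            ((convex_convexHull ℝ P).closure_interior_eq_closure_of_nonempty_interior hint).symm
        _ ⊆ {w | f w ≤ f x} := closure_minimal (fun y hy => (hf y hy).le)
            (isClosed_le f.continuous continuous_const)
    have h2 : f w ≤ f x := h1 (subset_convexHull ℝ P hw)
    rw [hfw w, hfw x] at h2
    simp only
    linarith

theorem finite_setoid (α : Type) [Finite α] : Finite (Setoid α) := by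
  apply Finite.of_injective (fun (s : Setoid α) (x y : α) => s x y)
  intro s t h
  ext x y
  have := congrFun (congrFun h x) y
  simp only at this
  rw [this]

/-- Combination of the combinatorial and the geometric parts. -/
theorem weighted_ne (P : Finset (ℝ × ℝ)) (hcol : ¬ Collinear ℝ (P : Set (ℝ × ℝ)))
    (hfr : (P : Set (ℝ × ℝ)) ⊆ frontier (convexHull ℝ (P : Set (ℝ × ℝ))))
    (hblank : ∀ a ∈ P, ∀ b ∈ P, a ≠ b → (∀ c ∈ P, 0 ≤ det a b c) →
      ∃ c ∈ P, c ≠ a ∧ c ≠ b ∧ det a b c = 0) (I : Finset (Setoid P))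
    (hI : ∀ s, s ∈ I ↔ IsNoncrossing s) :
    ∑ s ∈ I, (2 : ℝ) ^ (P.card - Nat.card (Quotient s)) ≠
      2 ^ (P.card - 1) * ∑ s ∈ I, (1 / 2 : ℝ) ^ (P.card - Nat.card (Quotient s)) := by
  classical
  have hdet : ∃ a ∈ P, ∃ b ∈ P, ∃ c ∈ P, det a b c ≠ 0 := exists_det_ne hcol
  obtain ⟨p, L, hmem, hsurj, hcorner⟩ := exists_lab P hdet (supp_of_frontier hcol hfr)
  have hn := L.hn
  set n := P.card with hndef
  let q : ℕ → P := fun i => ⟨p i, hmem i⟩
  have hinj : Function.Injective (Subtype.val : P → ℝ × ℝ) := Subtype.val_injective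
  have hpq : ∀ i, (q i).val = p i := fun i => rfl
  have hs : ∀ x : P, ∃ i, q i = x := by
    intro x
    obtain ⟨i, _, hi⟩ := hsurj x.1 x.2
    exact ⟨i, Subtype.ext hi⟩
  have h0 : ¬ flat p n := L.corner0 hcorner
  let K : Finset ℕ := (range n).filter (fun k => 0 < k ∧ ¬ flat p k)
  have hK : ∀ k, k ∈ K ↔ 0 < k ∧ k < n ∧ ¬ flat p k := by
    intro k
    simp only [K, mem_filter, mem_range]
    tauto
  have hcond : ∀ s, s ∈ I ↔ Cond n q (RK K) s := by
    intro s
    rw [hI, ← nc_iff L hinj hpq hs h0 hK s]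
    rfl
  -- index function
  choose idx hidx1 hidx2 using fun x : P => hsurj x.1 x.2
  have hidx : ∀ i, i < n → idx (q i) = i := by
    intro i hi
    have h1 := hidx1 (q i)
    have h2 := hidx2 (q i)
    rcases Nat.lt_trichotomy (idx (q i)) i with h | h | h
    · exact absurd h2 (L.inj _ _ h (by omega))
    · exact h
    · exact absurd h2.symm (L.inj _ _ h (by omega))
  have hidx' : ∀ x, idx x < n ∧ q (idx x) = x := fun x => ⟨hidx1 x, Subtype.ext (hidx2 x)⟩
  have hqn : q n = q 0 := by
    have := qper L hinj hpq 0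
    rwa [Nat.zero_add] at this
  have h2 := sum_setoid (R := RK K) idx hidx hidx' hqn (by omega) 2 I hcond
  have h3 := sum_setoid (R := RK K) idx hidx hidx' hqn (by omega) (1 / 2) I hcond
  -- sides
  have hside : ∀ a b, (∀ c, 0 ≤ det (p a) (p b) (p c)) → p a ≠ p b →
      ∃ c, p c ≠ p a ∧ p c ≠ p b ∧ det (p a) (p b) (p c) = 0 := by
    intro a b h4 h5
    obtain ⟨c, hc, hc1, hc2, hc3⟩ := hblank (p a) (hmem a) (p b) (hmem b) h5 (by
      intro c hc
      obtain ⟨i, _, rfl⟩ := hsurj c hc
      exact h4 i)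
    obtain ⟨i, _, rfl⟩ := hsurj c hc
    exact ⟨i, hc1, hc2, hc3⟩
  have hX := X_ne K (by
    intro k hk hk1
    rw [hK] at hk hk1
    exact L.no_consec hside (by omega) hk.2.2 hk1.2.2) (by
    intro h1
    rw [hK] at h1
    refine L.no_consec hside (by omega : 1 ≤ n) h0 ?_
    rw [Nat.add_comm, L.flat_per (le_refl 1)]
    exact h1.2.2) n (by
    right; right
    refine ⟨by omega, ?_⟩
    intro h1
    rw [hK] at h1
    refine L.no_consec hside (by omega : 1 ≤ n - 1) h1.2.2 ?_
    rwa [Nat.sub_add_cancel (by omega)]) (by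
    right; right
    intro k hk
    rw [hK] at hk
    exact hk.2.1)
  intro heq
  apply hX
  unfold X
  rw [e_ne 2 (by omega : 0 < n), e_ne (1 / 2) (by omega : 0 < n), ← h2, ← h3, heq]
  have h6 : (2 : ℝ) ^ (n + 1) = 2 * 2 * 2 ^ (n - 1) := by
    rw [← pow_two, ← pow_add]; congr 1; omega
  rw [h6]
  ring

/-- graded of rank `N`: every maximal chain has `N + 1` elements -/
def GradedOfRank (α : Type) [PartialOrder α] (N : ℕ) : Prop :=
  ∀ C : Set α, IsMaxChain (· ≤ ·) C → C.ncard = N + 1

/-- rank-symmetric -/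
def RankSymmetric (α : Type) [PartialOrder α] : Prop :=
  ∃ N : ℕ, GradedOfRank α N ∧ ∀ i ≤ N,
    {x : α | Order.height x = (i : ℕ∞)}.ncard = {x : α | Order.height x = ((N - i : ℕ) : ℕ∞)}.ncard

theorem not_symm (P : Finset (ℝ × ℝ)) (hP : 1 ≤ P.card) (I : Finset (Setoid P))
    (hI : ∀ s, s ∈ I ↔ IsNoncrossing s)
    (hne : ∑ s ∈ I, (2 : ℝ) ^ (P.card - Nat.card (Quotient s)) ≠
      2 ^ (P.card - 1) * ∑ s ∈ I, (1 / 2 : ℝ) ^ (P.card - Nat.card (Quotient s))) :
    ¬ RankSymmetric (NC P) := by
  classical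
  rintro ⟨N, hgr, hsym⟩
  -- level counts
  have hlev : ∀ i : ℕ, {x : NC P | Order.height x = (i : ℕ∞)}.ncard =
      (I.filter (fun s => P.card - Nat.card (Quotient s) = i)).card := by
    intro i
    rw [← Set.ncard_coe_finset]
    rw [← Set.ncard_image_of_injective {x : NC P | Order.height x = (i : ℕ∞)}
      (f := fun x : NC P => (x.1 : Setoid P)) (fun x y h => Subtype.ext h)]
    congr 1
    ext s
    constructor
    · rintro ⟨x, hx, rfl⟩
      have hx' : Order.height (α := NC P) x = (i : ℕ∞) := hx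
      rw [height_eq] at hx'
      rw [Finset.mem_coe, Finset.mem_filter, hI]
      exact ⟨x.2, by exact_mod_cast hx'⟩
    · intro hs
      rw [Finset.mem_coe, Finset.mem_filter, hI] at hs
      refine ⟨⟨s, hs.1⟩, ?_, rfl⟩
      show Order.height (α := NC P) ⟨s, hs.1⟩ = (i : ℕ∞)
      rw [height_eq]
      exact_mod_cast hs.2
  have : Nonempty P := by
    obtain ⟨a, ha⟩ := Finset.card_pos.1 (show 0 < P.card by omega)
    exact ⟨⟨a, ha⟩⟩
  have hpos : ∀ s : Setoid P, 0 < Nat.card (Quotient s) := fun s => by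
    have : Nonempty (Quotient s) := ⟨Quotient.mk s (Classical.arbitrary P)⟩
    exact Nat.card_pos
  have hcardle : ∀ s : Setoid P, Nat.card (Quotient s) ≤ P.card := ncard_quot_le
  -- the discrete partition
  have hbot : IsNoncrossing (⊥ : Setoid P) := by
    intro x y hxy
    have : ∀ x : P, {z : P | (⊥ : Setoid P) x z} = {x} := by
      intro x
      ext z
      rw [Set.mem_setOf_eq, Set.mem_singleton_iff]
      exact eq_comm
    rw [this, this, Set.image_singleton, Set.image_singleton, convexHull_singleton,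
      convexHull_singleton, Set.disjoint_singleton]
    intro h
    exact hxy (by rw [Subtype.ext h])
  have htop : IsNoncrossing (⊤ : Setoid P) := by
    intro x y hxy
    exact absurd trivial hxy
  have hbotcard : Nat.card (Quotient (⊥ : Setoid P)) = P.card := by
    apply le_antisymm (hcardle _)
    have h1 := Nat.card_le_card_of_injective (Quotient.mk (⊥ : Setoid P)) (by
      intro a b hab
      exact Quotient.exact hab)
    rwa [Nat.card_eq_fintype_card (α := P), Fintype.card_coe] at h1
  have htopcard : Nat.card (Quotient (⊤ : Setoid P)) = 1 := by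
    rw [Nat.card_eq_one_iff_unique]
    refine ⟨⟨?_⟩, ⟨Quotient.mk _ (Classical.arbitrary P)⟩⟩
    intro a b
    obtain ⟨x, rfl⟩ := Quotient.exists_rep a
    obtain ⟨y, rfl⟩ := Quotient.exists_rep b
    exact Quotient.sound trivial
  -- the rank
  have hN1 : N ≤ P.card - 1 := by
    have h1 := hsym 0 (Nat.zero_le _)
    rw [hlev, hlev, Nat.sub_zero] at h1
    have h2 : 0 < (I.filter (fun s => P.card - Nat.card (Quotient s) = 0)).card := by
      rw [Finset.card_pos]
      refine ⟨⊥, ?_⟩
      rw [Finset.mem_filter, hI]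
      exact ⟨hbot, by rw [hbotcard]; omega⟩
    rw [h1, Finset.card_pos] at h2
    obtain ⟨s, hs⟩ := h2
    rw [Finset.mem_filter] at hs
    have := hpos s
    omega
  have hN2 : P.card - 1 ≤ N := by
    let T : NC P := ⟨⊤, htop⟩
    have h1 : Order.height T = ((P.card - 1 : ℕ) : ℕ∞) := by
      rw [height_eq]
      show ((P.card - Nat.card (Quotient (⊤ : Setoid P)) : ℕ) : ℕ∞) = _
      rw [htopcard]
    obtain ⟨c, _, hc⟩ := Order.exists_series_of_height_eq_coe T h1
    have hchain : IsChain (· ≤ ·) (Set.range c) := by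
      rintro _ ⟨i, rfl⟩ _ ⟨j, rfl⟩ hne'
      rcases le_total i j with h | h
      · left; exact c.monotone h
      · right; exact c.monotone h
    obtain ⟨M, hM, hsub⟩ := hchain.exists_maxChain
    have h2 := hgr M hM
    have : Finite (Setoid P) := finite_setoid P
    have : Finite (NC P) := inferInstanceAs (Finite {r : Setoid P // IsNoncrossing r})
    have h3 : (Set.range c).ncard = P.card - 1 + 1 := by
      rw [← Set.image_univ, Set.ncard_image_of_injective _ c.strictMono.injective, Set.ncard_univ,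
        Nat.card_eq_fintype_card, Fintype.card_fin, hc]
    have h4 := Set.ncard_le_ncard hsub (Set.toFinite M)
    omega
  have hN : N = P.card - 1 := by omega
  -- weighted sums
  have hsum : ∀ t : ℝ, ∑ s ∈ I, t ^ (P.card - Nat.card (Quotient s)) =
      ∑ i ∈ range (N + 1), ((I.filter (fun s => P.card - Nat.card (Quotient s) = i)).card : ℝ) * t ^ i := by
    intro t
    rw [← Finset.sum_fiberwise_of_maps_to (t := range (N + 1))
      (g := fun s => P.card - Nat.card (Quotient s)) (fun s _ => by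
        rw [mem_range]
        have := hpos s
        omega)]
    refine Finset.sum_congr rfl fun i _ => ?_
    rw [Finset.sum_congr rfl (g := fun _ => t ^ i) (fun s hs => by
      rw [Finset.mem_filter] at hs
      rw [hs.2])]
    rw [Finset.sum_const, nsmul_eq_mul]
  apply hne
  rw [hsum, hsum, ← hN, Finset.mul_sum, ← Finset.sum_range_reflect]
  refine Finset.sum_congr rfl fun i hi => ?_
  rw [mem_range] at hi
  have h1 := hsym i (by omega)
  rw [hlev, hlev] at h1
  have h2 : N + 1 - 1 - i = N - i := by omega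
  rw [h2, ← h1]
  have h3 : (2 : ℝ) ^ N = 2 ^ (N - i) * 2 ^ i := by
    rw [← pow_add]; congr 1; omega
  rw [h3, one_div, inv_pow]
  have h4 : (2 : ℝ) ^ i ≠ 0 := by positivity
  field_simp

end V11176.NCB
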