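import Pool.Agent.V11176.NCB.Arcs

set_option autoImplicit false

open Finset

namespace V11176.NCB

section
variable {R : ℕ → ℕ → Prop}

theorem e_self (t : ℝ) (y : ℕ) : e R t y y = 1 := by
  classical
  unfold e; rw [if_pos rfl]

theorem e_ne (t : ℝ) {y x : ℕ} (h : y < x) : e R t y x = V R t y x := by
  classical
  unfold e; rw [if_neg (by omega)]

theorem Ico_split {y n : ℕ} (h : y < n) (f : ℕ → ℝ) :
    ∑ x ∈ Ico y n, f x = f y + ∑ x ∈ Ioo y n, f x := by
  have : Ico y n = insert y (Ioo y n) := by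
    ext x; simp only [mem_Ico, mem_insert, mem_Ioo]; omega
  rw [this, sum_insert (by simp)]

theorem Ioc_split {y n : ℕ} (h : y < n) (f : ℕ → ℝ) :
    ∑ x ∈ Ioc y n, f x = ∑ x ∈ Ioo y n, f x + f n := by
  have : Ioc y n = insert n (Ioo y n) := by
    ext x; simp only [mem_Ioc, mem_insert, mem_Ioo]; omega
  rw [this, sum_insert (by simp), add_comm]

theorem I1 (t : ℝ) (n : ℕ) : ∀ d y : ℕ, n = y + d + 1 →
    W R t y n = ∑ x ∈ Ico y n, e R t y x * W R t (x + 1) n := by
  intro d
  induction d using Nat.strong_induction_on with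
  | _ d ih =>
  intro y hy
  have hyn : y < n := by omega
  rw [W_rec, Ico_split hyn, e_self, one_mul]
  congr 1
  have h1 : ∑ z ∈ Ioo y n, rho R y z * (t * W R t (y + 1) z * W R t z n) =
      ∑ z ∈ Ioo y n, ∑ x ∈ Ico z n, rho R y z * (t * W R t (y + 1) z) *
        (e R t z x * W R t (x + 1) n) := by
    refine Finset.sum_congr rfl fun z hz => ?_
    rw [mem_Ioo] at hz
    rw [ih (n - z - 1) (by omega) z (by omega), ← Finset.mul_sum]
    ring
  have h2 : ∑ x ∈ Ioo y n, e R t y x * W R t (x + 1) n =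
      ∑ x ∈ Ioo y n, ∑ z ∈ Ioc y x, rho R y z * (t * W R t (y + 1) z) *
        (e R t z x * W R t (x + 1) n) := by
    refine Finset.sum_congr rfl fun x hx => ?_
    rw [mem_Ioo] at hx
    rw [e_ne t hx.1, V_rec t hx.1, Finset.sum_mul]
    refine Finset.sum_congr rfl fun z _ => ?_
    ring
  rw [h1, h2]
  refine Finset.sum_comm' ?_
  intro z x
  simp only [mem_Ioo, mem_Ico, mem_Ioc]
  omega

theorem I2 (t : ℝ) (n : ℕ) : ∀ d y : ℕ, n = y + d + 1 →
    V R t y n = t * ∑ x ∈ Ico y n, rho R x n * (e R t y x * W R t (x + 1) n) := by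
  intro d
  induction d using Nat.strong_induction_on with
  | _ d ih =>
  intro y hy
  have hyn : y < n := by omega
  rw [V_rec t hyn, Ioc_split hyn, Ico_split hyn, e_self, e_self, mul_add, add_comm]
  congr 1
  · ring
  rw [Finset.mul_sum]
  have h1 : ∑ z ∈ Ioo y n, rho R y z * (t * W R t (y + 1) z * e R t z n) =
      ∑ z ∈ Ioo y n, ∑ x ∈ Ico z n, t * rho R x n * (rho R y z * (t * W R t (y + 1) z) *
        (e R t z x * W R t (x + 1) n)) := by
    refine Finset.sum_congr rfl fun z hz => ?_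
    rw [mem_Ioo] at hz
    rw [e_ne t hz.2, ih (n - z - 1) (by omega) z (by omega), Finset.mul_sum, Finset.mul_sum,
      Finset.mul_sum]
    refine Finset.sum_congr rfl fun x _ => ?_
    ring
  have h2 : ∑ x ∈ Ioo y n, t * (rho R x n * (e R t y x * W R t (x + 1) n)) =
      ∑ x ∈ Ioo y n, ∑ z ∈ Ioc y x, t * rho R x n * (rho R y z * (t * W R t (y + 1) z) *
        (e R t z x * W R t (x + 1) n)) := by
    refine Finset.sum_congr rfl fun x hx => ?_
    rw [mem_Ioo] at hx
    rw [e_ne t hx.1, V_rec t hx.1, Finset.sum_mul, Finset.mul_sum, Finset.mul_sum]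
    refine Finset.sum_congr rfl fun z _ => ?_
    ring
  rw [h1, h2]
  refine Finset.sum_comm' ?_
  intro z x
  simp only [mem_Ioo, mem_Ico, mem_Ioc]
  omega

/-- palindromicity of the interval polynomials, in the form used below -/
theorem W_pal (hR : ∀ x, R x (x + 1)) : ∀ d l : ℕ,
    W R 2 l (l + d + 1) = 2 ^ d * W R (1 / 2) l (l + d + 1) := by
  intro d
  induction d using Nat.strong_induction_on with
  | _ d ih =>
  intro l
  rcases Nat.eq_zero_or_pos d with rfl | hd
  · rw [W_empty _ (by omega), W_empty _ (by omega)]; norm_num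
  · rw [W_rec 2, W_rec (1 / 2)]
    have hsplit : Ioo l (l + d + 1) = insert (l + 1) (Ioo (l + 1) (l + d + 1)) := by
      ext x; simp only [mem_insert, mem_Ioo]; omega
    rw [hsplit, sum_insert (by simp), sum_insert (by simp)]
    have hr : rho R l (l + 1) = 1 := by
      classical
      unfold rho; rw [if_pos (hR l)]
    rw [hr, W_empty 2 (le_of_lt (by omega) : l + 1 ≤ l + 1 + 1),
      W_empty (1 / 2) (le_of_lt (by omega) : l + 1 ≤ l + 1 + 1)]
    have h1 := ih (d - 1) (by omega) (l + 1)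
    rw [show l + 1 + (d - 1) + 1 = l + d + 1 by omega] at h1
    have h2 : ∑ j ∈ Ioo (l + 1) (l + d + 1), rho R l j * (2 * W R 2 (l + 1) j *
        W R 2 j (l + d + 1)) =
        2 ^ d * ∑ j ∈ Ioo (l + 1) (l + d + 1), rho R l j * (1 / 2 * W R (1 / 2) (l + 1) j *
        W R (1 / 2) j (l + d + 1)) := by
      rw [Finset.mul_sum]
      refine Finset.sum_congr rfl fun j hj => ?_
      rw [mem_Ioo] at hj
      have h3 := ih (j - l - 2) (by omega) (l + 1)
      rw [show l + 1 + (j - l - 2) + 1 = j by omega] at h3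
      have h4 := ih (l + d - j) (by omega) j
      rw [show j + (l + d - j) + 1 = l + d + 1 by omega] at h4
      rw [h3, h4]
      have h5 : (2 : ℝ) ^ d = 2 ^ (j - l - 2) * 2 ^ (l + d - j) * 2 ^ 2 := by
        rw [← pow_add, ← pow_add]; congr 1; omega
      rw [h5]; ring
    rw [h2, h1]
    have h6 : (2 : ℝ) ^ d = 2 ^ (d - 1) * 2 := by
      rw [← pow_succ]; congr 1; omega
    rw [h6]; ring

/-- the antisymmetric part -/
noncomputable def X (R : ℕ → ℕ → Prop) (n : ℕ) : ℝ := e R 2 0 n - 2 ^ (n + 1) * e R (1 / 2) 0 n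

theorem X_zero : X R 0 = -1 := by
  unfold X; rw [e_self, e_self]; norm_num

theorem X_rec (hR : ∀ x, R x (x + 1)) {n : ℕ} (hn : 0 < n) :
    X R n = -2 * ∑ x ∈ range (n - 1), (1 - rho R x n) * (W R 2 (x + 1) n * X R x) := by
  classical
  have key : ∀ t : ℝ, e R t 0 n = t * W R t 0 n -
      t * ∑ x ∈ range (n - 1), (1 - rho R x n) * (e R t 0 x * W R t (x + 1) n) := by
    intro t
    rw [e_ne t hn, I2 t n (n - 1) 0 (by omega), ← mul_sub]
    congr 1
    rw [I1 t n (n - 1) 0 (by omega)]
    have hI : Ico 0 n = insert (n - 1) (range (n - 1)) := by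
      ext x; simp only [mem_Ico, mem_insert, mem_range]; omega
    rw [hI, sum_insert (by simp), sum_insert (by simp)]
    have hr : rho R (n - 1) n = 1 := by
      unfold rho; rw [if_pos]
      have := hR (n - 1)
      rwa [show n - 1 + 1 = n by omega] at this
    rw [hr, one_mul, add_sub_assoc, ← Finset.sum_sub_distrib]
    congr 1
    refine Finset.sum_congr rfl fun x _ => ?_
    ring
  have hp := W_pal (R := R) hR (n - 1) 0
  rw [show 0 + (n - 1) + 1 = n by omega] at hp
  rw [X, key 2, key (1 / 2), hp]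
  have h2 : (2 : ℝ) ^ (n + 1) = 2 ^ (n - 1) * 4 := by
    have : (2 : ℝ) ^ (n + 1) = 2 ^ (n - 1) * 2 ^ 2 := by
      rw [← pow_add]; congr 1; omega
    rw [this]; norm_num
  rw [mul_sub, Finset.mul_sum, Finset.mul_sum, Finset.mul_sum, Finset.mul_sum]
  have h3 : ∀ a b c d : ℝ, a = c → d - b = (0 : ℝ) + (d - b) → (a - b) - (c - d) = d - b := by
    intro a b c d h _; rw [h]; ring
  have h4 : 2 * (2 ^ (n - 1) * W R (1 / 2) 0 n) = 2 ^ (n + 1) * (1 / 2 * W R (1 / 2) 0 n) := by
    rw [h2]; ring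
  rw [h4]
  rw [show ∀ a b c : ℝ, (a - b) - (a - c) = c - b by intro a b c; ring]
  rw [← Finset.sum_sub_distrib]
  refine Finset.sum_congr rfl fun x hx => ?_
  rw [mem_range] at hx
  have hw := W_pal (R := R) hR (n - x - 2) (x + 1)
  rw [show x + 1 + (n - x - 2) + 1 = n by omega] at hw
  rw [X, hw]
  have h5 : (2 : ℝ) ^ (n + 1) = 2 ^ (n - x - 2) * 2 ^ (x + 1) * 4 := by
    have : (2 : ℝ) ^ (n + 1) = 2 ^ (n - x - 2) * 2 ^ (x + 1) * 2 ^ 2 := by
      rw [← pow_add, ← pow_add]; congr 1; omega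
    rw [this]; norm_num
  rw [h5]; ring

end

/-- the relation attached to a set of corners -/
def RK (K : Finset ℕ) (x y : ℕ) : Prop := y = x + 1 ∨ ∃ k ∈ K, x < k ∧ k < y

theorem RK_succ (K : Finset ℕ) (x : ℕ) : RK K x (x + 1) := Or.inl rfl

theorem W_flat (K : Finset ℕ) (t : ℝ) : ∀ d l : ℕ, (∀ k ∈ K, ¬ (l < k ∧ k < l + d + 1)) →
    W (RK K) t l (l + d + 1) = (1 + t) ^ d := by
  classical
  intro d
  induction d with
  | zero => intro l _; rw [W_empty _ (by omega), pow_zero]
  | succ d ih =>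
    intro l hl
    rw [W_rec]
    have hI : ∑ j ∈ Ioo l (l + (d + 1) + 1), rho (RK K) l j *
        (t * W (RK K) t (l + 1) j * W (RK K) t j (l + (d + 1) + 1)) =
        rho (RK K) l (l + 1) * (t * W (RK K) t (l + 1) (l + 1) *
          W (RK K) t (l + 1) (l + (d + 1) + 1)) := by
      refine Finset.sum_eq_single (l + 1) ?_ ?_
      · intro j hj hne
        rw [mem_Ioo] at hj
        have : rho (RK K) l j = 0 := by
          unfold rho
          rw [if_neg]
          rintro (h | ⟨k, hk, h1, h2⟩)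
          · exact hne h
          · exact hl k hk ⟨h1, by omega⟩
        rw [this, zero_mul]
      · intro h
        exfalso
        apply h
        rw [mem_Ioo]; omega
    rw [hI]
    have hr : rho (RK K) l (l + 1) = 1 := by
      unfold rho; rw [if_pos (RK_succ K l)]
    have hi := ih (l + 1) (by
      intro k hk h
      exact hl k hk ⟨by omega, by omega⟩)
    rw [show l + 1 + d + 1 = l + (d + 1) + 1 by omega] at hi
    rw [hr, W_empty t (by omega : l + 1 ≤ l + 1 + 1), hi, pow_succ]
    ring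

theorem X_run (K : Finset ℕ) (c : ℕ) (hc : c = 0 ∨ c ∈ K) : ∀ d : ℕ,
    (∀ k ∈ K, ¬ (c < k ∧ k < c + d + 1)) →
    X (RK K) (c + d + 1) = -2 * (2 ^ d - 1) * X (RK K) c := by
  classical
  -- S n = sum of 3-powers
  have hform : ∀ d : ℕ, (∀ k ∈ K, ¬ (c < k ∧ k < c + d + 1)) →
      X (RK K) (c + d + 1) = -2 * ∑ i ∈ range d, 3 ^ (d - 1 - i) * X (RK K) (c + i) := by
    intro d hd
    rw [X_rec (RK_succ K) (by omega)]
    congr 1
    rw [show c + d + 1 - 1 = c + d by omega, Finset.range_eq_Ico,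
      ← Finset.sum_Ico_consecutive _ (Nat.zero_le c) (Nat.le_add_right c d)]
    have h0 : ∑ x ∈ Ico 0 c, (1 - rho (RK K) x (c + d + 1)) *
        (W (RK K) 2 (x + 1) (c + d + 1) * X (RK K) x) = 0 := by
      refine Finset.sum_eq_zero fun x hx => ?_
      rw [mem_Ico] at hx
      have : rho (RK K) x (c + d + 1) = 1 := by
        unfold rho
        rw [if_pos]
        right
        rcases hc with hc | hc
        · omega
        · exact ⟨c, hc, hx.2, by omega⟩
      rw [this, sub_self, zero_mul]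
    rw [h0, zero_add, Finset.sum_Ico_eq_sum_range]
    rw [show c + d - c = d by omega]
    rw [Finset.range_eq_Ico, ← Finset.range_eq_Ico]
    refine Finset.sum_congr rfl fun i hi => ?_
    rw [mem_range] at hi
    have hr : rho (RK K) (c + i) (c + d + 1) = 0 := by
      unfold rho
      rw [if_neg]
      rintro (h | ⟨k, hk, h1, h2⟩)
      · omega
      · exact hd k hk ⟨by omega, h2⟩
    have hw := W_flat K 2 (d - 1 - i) (c + i + 1) (by
      intro k hk h
      exact hd k hk ⟨by omega, by omega⟩)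
    rw [show c + i + 1 + (d - 1 - i) + 1 = c + d + 1 by omega] at hw
    rw [hr, hw]
    norm_num
  intro d
  induction d using Nat.strong_induction_on with
  | _ d ih =>
  intro hd
  rcases d with _ | _ | d
  · rw [hform 0 hd]; simp
  · have h1 := hform 1 hd
    rw [Finset.sum_range_one] at h1
    show X (RK K) (c + 1 + 1) = _
    rw [h1]
    norm_num
  · have h1 := hform (d + 2) hd
    have h2 := hform (d + 1) (fun k hk h => hd k hk ⟨h.1, by omega⟩)
    have h3 := ih (d + 1) (by omega) (fun k hk h => hd k hk ⟨h.1, by omega⟩)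
    have h4 : X (RK K) (c + (d + 1)) = -2 * (2 ^ d - 1) * X (RK K) c := by
      have := ih d (by omega) (fun k hk h => hd k hk ⟨h.1, by omega⟩)
      rwa [show c + d + 1 = c + (d + 1) by omega] at this
    have h5 : ∑ i ∈ range (d + 2), (3 : ℝ) ^ (d + 2 - 1 - i) * X (RK K) (c + i) =
        3 * ∑ i ∈ range (d + 1), (3 : ℝ) ^ (d + 1 - 1 - i) * X (RK K) (c + i) +
        X (RK K) (c + (d + 1)) := by
      rw [Finset.sum_range_succ _ (d + 1), Finset.mul_sum]
      congr 1
      · refine Finset.sum_congr rfl fun i hi => ?_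
        rw [mem_range] at hi
        have : (3 : ℝ) ^ (d + 2 - 1 - i) = 3 * 3 ^ (d + 1 - 1 - i) := by
          rw [← pow_succ']; congr 1; omega
        rw [this]; ring
      · rw [show d + 2 - 1 - (d + 1) = 0 by omega, pow_zero, one_mul]
    show X (RK K) (c + (d + 2) + 1) = _
    rw [h1, h5]
    have h6 : X (RK K) (c + (d + 1) + 1) =
      -2 * ∑ i ∈ range (d + 1), (3 : ℝ) ^ (d + 1 - 1 - i) * X (RK K) (c + i) := h2
    have h7 : -2 * (3 * ∑ i ∈ range (d + 1), (3 : ℝ) ^ (d + 1 - 1 - i) * X (RK K) (c + i) +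
        X (RK K) (c + (d + 1))) = 3 * X (RK K) (c + (d + 1) + 1) - 2 * X (RK K) (c + (d + 1)) := by
      rw [h6]; ring
    rw [h7, h3, h4, pow_succ, pow_succ]
    ring

/-- **Non-vanishing of the antisymmetric part.** -/
theorem X_ne (K : Finset ℕ) (hcons : ∀ k ∈ K, k + 1 ∉ K) (h1 : 1 ∉ K) :
    ∀ n, (n = 0 ∨ n ∈ K ∨ (1 < n ∧ n - 1 ∉ K)) → (n ∈ K ∨ n = 0 ∨ ∀ k ∈ K, k < n) →
    X (RK K) n ≠ 0 := by
  classical
  intro n
  induction n using Nat.strong_induction_on with
  | _ n ih =>
  intro hn hn2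
  rcases Nat.eq_zero_or_pos n with rfl | hpos
  · rw [X_zero]; norm_num
  · -- previous corner
    let S := (insert 0 K).filter (fun k => k < n)
    have hS : S.Nonempty := ⟨0, by simp [S, hpos]⟩
    obtain ⟨c, hcS, hcmax⟩ := Finset.exists_max_image S id hS
    simp only [id] at hcmax
    have hc1 : c < n := (mem_filter.1 hcS).2
    have hc2 : c = 0 ∨ c ∈ K := by
      have := (mem_filter.1 hcS).1
      rwa [mem_insert] at this
    have hno : ∀ k ∈ K, ¬ (c < k ∧ k < n) := by
      intro k hk h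
      have := hcmax k (mem_filter.2 ⟨mem_insert_of_mem hk, h.2⟩)
      omega
    have hrun := X_run K c hc2 (n - c - 1) (by
      intro k hk h
      exact hno k hk ⟨h.1, by omega⟩)
    rw [show c + (n - c - 1) + 1 = n by omega] at hrun
    rw [hrun]
    have hcX : X (RK K) c ≠ 0 := by
      apply ih c hc1
      · rcases hc2 with h | h
        · exact Or.inl h
        · exact Or.inr (Or.inl h)
      · rcases hc2 with h | h
        · exact Or.inr (Or.inl h)
        · exact Or.inl h
    have hd : n - c - 1 ≠ 0 := by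
      intro h0
      have hnc : n = c + 1 := by omega
      rcases hc2 with h | h
      · subst h
        rcases hn with h | h | h
        · omega
        · rw [hnc] at h; exact h1 h
        · omega
      · rcases hn with h' | h' | h'
        · omega
        · rw [hnc] at h'; exact hcons c h h'
        · apply h'.2
          rw [hnc]; simpa using h
    have hpow : (2 : ℝ) ^ (n - c - 1) - 1 ≠ 0 := by
      have : (1 : ℝ) < 2 ^ (n - c - 1) := one_lt_pow₀ (by norm_num) hd
      linarith
    exact mul_ne_zero (mul_ne_zero (by norm_num) hpow) hcX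

end V11176.NCB
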