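import Mathlib

set_option autoImplicit false

open Finset

namespace V11176.NCB

/-- Noncrossing sets of arcs on `[l, r)` with all arcs allowed by `R`. -/
structure Good (R : ℕ → ℕ → Prop) (l r : ℕ) (A : Finset (ℕ × ℕ)) : Prop where
  lb : ∀ a ∈ A, l ≤ a.1
  lt : ∀ a ∈ A, a.1 < a.2
  ub : ∀ a ∈ A, a.2 < r
  rel : ∀ a ∈ A, R a.1 a.2
  ul : ∀ a ∈ A, ∀ b ∈ A, a.1 = b.1 → a = b
  ur : ∀ a ∈ A, ∀ b ∈ A, a.2 = b.2 → a = b
  nc : ∀ a ∈ A, ∀ b ∈ A, ¬ (a.1 < b.1 ∧ b.1 < a.2 ∧ a.2 < b.2)

open Classical in
noncomputable def GS (R : ℕ → ℕ → Prop) (l r : ℕ) : Finset (Finset (ℕ × ℕ)) :=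
  ((range r ×ˢ range r).powerset).filter (Good R l r)

theorem mem_GS {R : ℕ → ℕ → Prop} {l r : ℕ} {A : Finset (ℕ × ℕ)} :
    A ∈ GS R l r ↔ Good R l r A := by
  classical
  unfold GS
  simp only [mem_filter, mem_powerset, and_iff_right_iff_imp]
  intro h a ha
  have h1 := h.lt a ha
  have h2 := h.ub a ha
  simp only [mem_product, mem_range]
  omega

noncomputable def W (R : ℕ → ℕ → Prop) (t : ℝ) (l r : ℕ) : ℝ := ∑ A ∈ GS R l r, t ^ A.card

def Conn (A : Finset (ℕ × ℕ)) (x y : ℕ) : Prop := Relation.TransGen (fun a b => (a, b) ∈ A) x y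

open Classical in
noncomputable def V (R : ℕ → ℕ → Prop) (t : ℝ) (l n : ℕ) : ℝ :=
  ∑ A ∈ (GS R l (n + 1)).filter (fun A => Conn A l n), t ^ A.card

section
variable {R : ℕ → ℕ → Prop}

theorem good_split {l r j : ℕ} {A : Finset (ℕ × ℕ)} (h : Good R l r A) (hj : (l, j) ∈ A)
    {a : ℕ × ℕ} (ha : a ∈ A) : a = (l, j) ∨ (l < a.1 ∧ a.2 < j) ∨ j ≤ a.1 := by
  by_cases h1 : a.1 = l
  · left
    exact h.ul a ha _ hj h1
  · have h2 : l < a.1 := lt_of_le_of_ne (h.lb a ha) (Ne.symm h1)
    right
    by_cases h3 : j ≤ a.1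
    · exact Or.inr h3
    · left
      refine ⟨h2, ?_⟩
      have h4 : a.2 ≠ j := by
        intro h5
        have := h.ur a ha _ hj h5
        rw [this] at h1
        exact h1 rfl
      have h5 := h.nc _ hj a ha
      simp only [not_and, not_lt] at h5
      have := h5 h2 (by omega)
      omega

theorem good_build {l r j : ℕ} {A B : Finset (ℕ × ℕ)} (hlj : l < j) (hjr : j < r) (hR : R l j)
    (hA : Good R (l + 1) j A) (hB : Good R j r B) :
    Good R l r (insert (l, j) (A ∪ B)) := by
  have key : ∀ a ∈ insert (l, j) (A ∪ B), a = (l, j) ∨ (a ∈ A ∧ l < a.1 ∧ a.1 < a.2 ∧ a.2 < j) ∨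
      (a ∈ B ∧ j ≤ a.1 ∧ a.1 < a.2 ∧ a.2 < r) := by
    intro a ha
    simp only [mem_insert, mem_union] at ha
    rcases ha with rfl | ha | ha
    · left; rfl
    · right; left
      have h1 := hA.lb a ha
      have h2 := hA.lt a ha
      have h3 := hA.ub a ha
      exact ⟨ha, by omega, h2, h3⟩
    · right; right
      exact ⟨ha, hB.lb a ha, hB.lt a ha, hB.ub a ha⟩
  refine ⟨?_, ?_, ?_, ?_, ?_, ?_, ?_⟩
  · intro a ha
    rcases key a ha with rfl | h | h
    · exact le_refl _
    · omega
    · omega
  · intro a ha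
    rcases key a ha with rfl | h | h
    · exact hlj
    · omega
    · omega
  · intro a ha
    rcases key a ha with rfl | h | h
    · exact hjr
    · omega
    · omega
  · intro a ha
    rcases key a ha with rfl | h | h
    · exact hR
    · exact hA.rel a h.1
    · exact hB.rel a h.1
  · intro a ha b hb hab
    rcases key a ha with rfl | h | h <;> rcases key b hb with rfl | h' | h'
    · rfl
    · simp only at hab; omega
    · simp only at hab; omega
    · simp only at hab; omega
    · exact hA.ul a h.1 b h'.1 hab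
    · omega
    · simp only at hab; omega
    · omega
    · exact hB.ul a h.1 b h'.1 hab
  · intro a ha b hb hab
    rcases key a ha with rfl | h | h <;> rcases key b hb with rfl | h' | h'
    · rfl
    · simp only at hab; omega
    · simp only at hab; omega
    · simp only at hab; omega
    · exact hA.ur a h.1 b h'.1 hab
    · omega
    · simp only at hab; omega
    · omega
    · exact hB.ur a h.1 b h'.1 hab
  · intro a ha b hb
    rcases key a ha with rfl | h | h <;> rcases key b hb with rfl | h' | h'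
    · simp only; omega
    · simp only; omega
    · simp only; omega
    · simp only; omega
    · exact hA.nc a h.1 b h'.1
    · omega
    · simp only; omega
    · omega
    · exact hB.nc a h.1 b h'.1

theorem good_left {l r j : ℕ} {A : Finset (ℕ × ℕ)} (h : Good R l r A) :
    Good R (l + 1) j (A.filter (fun a => l < a.1 ∧ a.2 < j)) := by
  refine ⟨?_, ?_, ?_, ?_, ?_, ?_, ?_⟩
  · intro a ha; rw [mem_filter] at ha; omega
  · intro a ha; rw [mem_filter] at ha; exact h.lt a ha.1
  · intro a ha; rw [mem_filter] at ha; exact ha.2.2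
  · intro a ha; rw [mem_filter] at ha; exact h.rel a ha.1
  · intro a ha b hb; rw [mem_filter] at ha hb; exact h.ul a ha.1 b hb.1
  · intro a ha b hb; rw [mem_filter] at ha hb; exact h.ur a ha.1 b hb.1
  · intro a ha b hb; rw [mem_filter] at ha hb; exact h.nc a ha.1 b hb.1

theorem good_right {l r j : ℕ} {A : Finset (ℕ × ℕ)} (h : Good R l r A) :
    Good R j r (A.filter (fun a => j ≤ a.1)) := by
  refine ⟨?_, ?_, ?_, ?_, ?_, ?_, ?_⟩
  · intro a ha; rw [mem_filter] at ha; exact ha.2
  · intro a ha; rw [mem_filter] at ha; exact h.lt a ha.1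
  · intro a ha; rw [mem_filter] at ha; exact h.ub a ha.1
  · intro a ha; rw [mem_filter] at ha; exact h.rel a ha.1
  · intro a ha b hb; rw [mem_filter] at ha hb; exact h.ul a ha.1 b hb.1
  · intro a ha b hb; rw [mem_filter] at ha hb; exact h.ur a ha.1 b hb.1
  · intro a ha b hb; rw [mem_filter] at ha hb; exact h.nc a ha.1 b hb.1

theorem sum_arc {l r j : ℕ} (hlj : l < j) (hjr : j < r) (hR : R l j) (t : ℝ)
    (f : Finset (ℕ × ℕ) → ℝ) :
    ∑ A ∈ (GS R l r).filter (fun A => (l, j) ∈ A),
        t ^ A.card * f (A.filter (fun a => j ≤ a.1)) =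
      t * W R t (l + 1) j * ∑ B ∈ GS R j r, t ^ B.card * f B := by
  classical
  have hRHS : t * W R t (l + 1) j * ∑ B ∈ GS R j r, t ^ B.card * f B =
      ∑ p ∈ GS R (l + 1) j ×ˢ GS R j r, t * t ^ p.1.card * (t ^ p.2.card * f p.2) := by
    rw [Finset.sum_product, W, mul_assoc, Finset.sum_mul_sum, Finset.mul_sum]
    refine Finset.sum_congr rfl fun A _ => ?_
    rw [Finset.mul_sum]
    refine Finset.sum_congr rfl fun B _ => ?_
    ring
  rw [hRHS]
  have hfl : ∀ A B : Finset (ℕ × ℕ), Good R (l + 1) j A → Good R j r B →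
      (insert (l, j) (A ∪ B)).filter (fun a => l < a.1 ∧ a.2 < j) = A := by
    intro A B hA hB
    ext a
    simp only [mem_filter, mem_insert, mem_union]
    constructor
    · rintro ⟨h | h | h, h1, h2⟩
      · rw [h] at h1; simp at h1
      · exact h
      · have := hB.lb a h
        have := hB.lt a h
        omega
    · intro h
      have := hA.lb a h
      exact ⟨Or.inr (Or.inl h), by omega, hA.ub a h⟩
  have hfr : ∀ A B : Finset (ℕ × ℕ), Good R (l + 1) j A → Good R j r B →
      (insert (l, j) (A ∪ B)).filter (fun a => j ≤ a.1) = B := by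
    intro A B hA hB
    ext a
    simp only [mem_filter, mem_insert, mem_union]
    constructor
    · rintro ⟨h | h | h, h1⟩
      · rw [h] at h1; simp only at h1; omega
      · have := hA.ub a h
        have := hA.lt a h
        omega
      · exact h
    · intro h
      exact ⟨Or.inr (Or.inr h), hB.lb a h⟩
  have hins : ∀ A : Finset (ℕ × ℕ), Good R l r A → (l, j) ∈ A →
      insert (l, j) (A.filter (fun a => l < a.1 ∧ a.2 < j) ∪ A.filter (fun a => j ≤ a.1)) = A := by
    intro A hA hlA
    ext a
    simp only [mem_filter, mem_insert, mem_union]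
    constructor
    · rintro (h | h | h)
      · rw [h]; exact hlA
      · exact h.1
      · exact h.1
    · intro h
      rcases good_split hA hlA h with h1 | h1 | h1
      · exact Or.inl h1
      · exact Or.inr (Or.inl ⟨h, h1⟩)
      · exact Or.inr (Or.inr ⟨h, h1⟩)
  refine Finset.sum_bij'
    (fun A _ => (A.filter (fun a => l < a.1 ∧ a.2 < j), A.filter (fun a => j ≤ a.1)))
    (fun p _ => insert (l, j) (p.1 ∪ p.2)) ?_ ?_ ?_ ?_ ?_
  · intro A hA
    rw [mem_filter, mem_GS] at hA
    rw [mem_product, mem_GS, mem_GS]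
    exact ⟨good_left hA.1, good_right hA.1⟩
  · intro p hp
    rw [mem_product, mem_GS, mem_GS] at hp
    rw [mem_filter, mem_GS]
    exact ⟨good_build hlj hjr hR hp.1 hp.2, mem_insert_self _ _⟩
  · intro A hA
    rw [mem_filter, mem_GS] at hA
    exact hins A hA.1 hA.2
  · intro p hp
    rw [mem_product, mem_GS, mem_GS] at hp
    exact Prod.ext (hfl _ _ hp.1 hp.2) (hfr _ _ hp.1 hp.2)
  · intro A hA
    rw [mem_filter, mem_GS] at hA
    simp only
    have hcard : A.card = 1 + (A.filter (fun a => l < a.1 ∧ a.2 < j)).card +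
        (A.filter (fun a => j ≤ a.1)).card := by
      conv_lhs => rw [← hins A hA.1 hA.2]
      rw [card_insert_of_notMem, card_union_of_disjoint]
      · ring
      · rw [Finset.disjoint_left]
        intro a ha hb
        rw [mem_filter] at ha hb
        have := hA.1.lt a ha.1
        omega
      · simp only [mem_union, mem_filter, not_or]
        constructor
        · rintro ⟨_, h, _⟩
          simp at h
        · rintro ⟨_, h⟩
          omega
    rw [hcard, pow_add, pow_add, pow_one]
    ring

open Classical in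
theorem GS_noarc {l r : ℕ} :
    (GS R l r).filter (fun A => ∀ j, (l, j) ∉ A) = GS R (l + 1) r := by
  classical
  ext A
  rw [mem_filter, mem_GS, mem_GS]
  constructor
  · rintro ⟨h, h1⟩
    refine ⟨?_, h.lt, h.ub, h.rel, h.ul, h.ur, h.nc⟩
    intro a ha
    have := h.lb a ha
    rcases Nat.lt_or_ge l a.1 with h2 | h2
    · omega
    · have : a.1 = l := by omega
      exfalso
      apply h1 a.2
      rw [← this]
      exact ha
  · intro h
    refine ⟨⟨?_, h.lt, h.ub, h.rel, h.ul, h.ur, h.nc⟩, ?_⟩
    · intro a ha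
      have := h.lb a ha
      omega
    · intro j hj
      have := h.lb _ hj
      simp only at this
      omega

theorem sum_GS_split {l r : ℕ} (g : Finset (ℕ × ℕ) → ℝ) :
    ∑ A ∈ GS R l r, g A = ∑ A ∈ GS R (l + 1) r, g A +
      ∑ j ∈ Ioo l r, ∑ A ∈ (GS R l r).filter (fun A => (l, j) ∈ A), g A := by
  classical
  rw [← GS_noarc (R := R) (l := l) (r := r), Finset.sum_filter]
  simp only [Finset.sum_filter]
  rw [Finset.sum_comm, ← Finset.sum_add_distrib]
  refine Finset.sum_congr rfl fun A hA => ?_
  rw [mem_GS] at hA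
  by_cases h : ∀ j, (l, j) ∉ A
  · rw [if_pos h]
    have : ∑ j ∈ Ioo l r, (if (l, j) ∈ A then g A else 0) = 0 :=
      Finset.sum_eq_zero fun j _ => if_neg (h j)
    rw [this, add_zero]
  · rw [if_neg h, zero_add]
    push Not at h
    obtain ⟨j, hj⟩ := h
    rw [Finset.sum_eq_single j]
    · rw [if_pos hj]
    · intro j' _ hne
      rw [if_neg]
      intro hj'
      apply hne
      have := hA.ul _ hj' _ hj rfl
      exact (Prod.mk.inj this).2
    · intro hnm
      exfalso
      apply hnm
      have h1 := hA.lt _ hj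
      have h2 := hA.ub _ hj
      simp only at h1 h2
      rw [mem_Ioo]
      exact ⟨h1, h2⟩

theorem W_empty (t : ℝ) {l r : ℕ} (h : r ≤ l + 1) : W R t l r = 1 := by
  classical
  unfold W
  have : GS R l r = {∅} := by
    ext A
    rw [mem_GS, mem_singleton]
    constructor
    · intro hA
      rw [Finset.eq_empty_iff_forall_notMem]
      intro a ha
      have h1 := hA.lb a ha
      have h2 := hA.lt a ha
      have h3 := hA.ub a ha
      omega
    · rintro rfl
      constructor <;> simp
  rw [this, sum_singleton, card_empty, pow_zero]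

open Classical in
noncomputable def rho (R : ℕ → ℕ → Prop) (x y : ℕ) : ℝ := if R x y then 1 else 0

theorem arc_zero {l r j : ℕ} (hR : ¬ R l j) (g : Finset (ℕ × ℕ) → ℝ) :
    ∑ A ∈ (GS R l r).filter (fun A => (l, j) ∈ A), g A = 0 := by
  classical
  have : (GS R l r).filter (fun A => (l, j) ∈ A) = ∅ := by
    rw [Finset.eq_empty_iff_forall_notMem]
    intro A hA
    rw [mem_filter, mem_GS] at hA
    exact hR (hA.1.rel _ hA.2)
  rw [this, sum_empty]

theorem W_rec (t : ℝ) (l r : ℕ) :
    W R t l r = W R t (l + 1) r +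
      ∑ j ∈ Ioo l r, rho R l j * (t * W R t (l + 1) j * W R t j r) := by
  classical
  conv_lhs => unfold W
  rw [sum_GS_split]
  congr 1
  refine Finset.sum_congr rfl fun j hj => ?_
  rw [mem_Ioo] at hj
  by_cases hR : R l j
  · have h := sum_arc hj.1 hj.2 hR t (fun _ => 1)
    simp only [mul_one] at h
    rw [h, rho, if_pos hR, one_mul]
    rfl
  · rw [arc_zero hR, rho, if_neg hR, zero_mul]

theorem conn_filter {A : Finset (ℕ × ℕ)} (hlt : ∀ a ∈ A, a.1 < a.2) {j x y : ℕ} (hx : j ≤ x)
    (h : Conn A x y) : Conn (A.filter (fun a => j ≤ a.1)) x y := by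
  unfold Conn at *
  induction h using Relation.TransGen.head_induction_on with
  | single h =>
    exact Relation.TransGen.single (mem_filter.2 ⟨h, hx⟩)
  | head h _ ih =>
    have := hlt _ h
    simp only at this
    exact Relation.TransGen.head (mem_filter.2 ⟨h, hx⟩) (ih (by omega))

theorem conn_iff {l r j n : ℕ} {A : Finset (ℕ × ℕ)} (h : Good R l r A) (hj : (l, j) ∈ A) :
    Conn A l n ↔ (j = n ∨ Conn (A.filter (fun a => j ≤ a.1)) j n) := by
  constructor
  · intro hc
    unfold Conn at hc
    rw [Relation.TransGen.head'_iff] at hc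
    obtain ⟨c, hc1, hc2⟩ := hc
    have h1 := h.ul _ hc1 _ hj rfl
    have h2 : c = j := (Prod.mk.inj h1).2
    subst h2
    rcases Relation.reflTransGen_iff_eq_or_transGen.1 hc2 with h3 | h3
    · left; exact h3.symm
    · right
      exact conn_filter h.lt (le_refl _) h3
  · rintro (rfl | h1)
    · exact Relation.TransGen.single hj
    · refine Relation.TransGen.head hj ?_
      exact Relation.TransGen.mono (r := fun a b => (a, b) ∈ A.filter (fun c : ℕ × ℕ => j ≤ c.1))
        (p := fun a b => (a, b) ∈ A) (fun a b hab => (mem_filter.1 hab).1) j n h1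

open Classical in
noncomputable def e (R : ℕ → ℕ → Prop) (t : ℝ) (y x : ℕ) : ℝ := if x = y then 1 else V R t y x

theorem V_rec (t : ℝ) {l n : ℕ} (hln : l < n) :
    V R t l n = ∑ j ∈ Ioc l n, rho R l j * (t * W R t (l + 1) j * e R t j n) := by
  classical
  unfold V
  rw [Finset.sum_filter, sum_GS_split]
  have h0 : ∑ A ∈ GS R (l + 1) (n + 1), (if Conn A l n then t ^ A.card else 0) = 0 := by
    refine Finset.sum_eq_zero fun A hA => ?_
    rw [mem_GS] at hA
    rw [if_neg]
    intro hc
    unfold Conn at hc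
    rw [Relation.TransGen.head'_iff] at hc
    obtain ⟨c, hc1, _⟩ := hc
    have := hA.lb _ hc1
    simp only at this
    omega
  rw [h0, zero_add]
  have hI : Ioo l (n + 1) = Ioc l n := by
    ext x; simp only [mem_Ioo, mem_Ioc]; omega
  rw [hI]
  refine Finset.sum_congr rfl fun j hj => ?_
  rw [mem_Ioc] at hj
  by_cases hR : R l j
  · have h := sum_arc (R := R) (l := l) (r := n + 1) hj.1 (by omega) hR t
      (fun B => if (j = n ∨ Conn B j n) then 1 else 0)
    rw [rho, if_pos hR, one_mul]
    have h1 : ∑ A ∈ (GS R l (n + 1)).filter (fun A => (l, j) ∈ A),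
        (if Conn A l n then t ^ A.card else 0) =
        ∑ A ∈ (GS R l (n + 1)).filter (fun A => (l, j) ∈ A),
        t ^ A.card * (if (j = n ∨ Conn (A.filter (fun a => j ≤ a.1)) j n) then 1 else 0) := by
      refine Finset.sum_congr rfl fun A hA => ?_
      rw [mem_filter, mem_GS] at hA
      by_cases hc : Conn A l n
      · rw [if_pos hc, if_pos ((conn_iff hA.1 hA.2).1 hc), mul_one]
      · rw [if_neg hc, if_neg (fun hh => hc ((conn_iff hA.1 hA.2).2 hh)), mul_zero]
    rw [h1, h]
    congr 1
    unfold e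
    by_cases hjn : j = n
    · subst hjn
      rw [if_pos rfl]
      simp only [true_or, if_true, mul_one]
      exact W_empty t (le_refl _)
    · rw [if_neg (Ne.symm hjn)]
      unfold V
      rw [Finset.sum_filter]
      refine Finset.sum_congr rfl fun A _ => ?_
      simp only [hjn, false_or]
      split_ifs
      · rw [mul_one]
      · rw [mul_zero]
  · rw [arc_zero hR, rho, if_neg hR, zero_mul]

end

end V11176.NCB
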