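import Pool.Agent.V11176.NCB.Algebra

set_option autoImplicit false

open Finset

namespace V11176.NCB

section conn
variable {R : ℕ → ℕ → Prop} {l r : ℕ} {A : Finset (ℕ × ℕ)}

theorem conn_lt (hlt : ∀ a ∈ A, a.1 < a.2) {x y : ℕ} (h : Conn A x y) : x < y := by
  unfold Conn at h
  induction h with
  | single h => exact hlt _ h
  | tail _ h ih =>
    have := hlt _ h
    simp only at this
    omega

theorem conn_le (hub : ∀ a ∈ A, a.2 < r) {x y : ℕ} (h : Conn A x y) : y < r := by
  unfold Conn at h
  rw [Relation.TransGen.tail'_iff] at h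
  obtain ⟨c, _, hc⟩ := h
  exact hub _ hc

theorem merge_right (h : Good R l r A) {i j k : ℕ} (h1 : Conn A i j) :
    Conn A k j → (i = k ∨ Conn A i k ∨ Conn A k i) := by
  unfold Conn at h1
  induction h1 with
  | single h1 =>
    intro h2
    unfold Conn at h2
    rw [Relation.TransGen.tail'_iff] at h2
    obtain ⟨c, hc, hc2⟩ := h2
    have h3 := h.ur _ h1 _ hc2 rfl
    have h4 : i = c := (Prod.mk.inj h3).1
    subst h4
    rcases Relation.reflTransGen_iff_eq_or_transGen.1 hc with h5 | h5
    · left; exact h5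
    · right; right; exact h5
  | @tail b j' hib hbj ih =>
    intro h2
    unfold Conn at h2
    rw [Relation.TransGen.tail'_iff] at h2
    obtain ⟨c, hc, hc2⟩ := h2
    have h3 := h.ur _ hbj _ hc2 rfl
    have h4 : b = c := (Prod.mk.inj h3).1
    subst h4
    rcases Relation.reflTransGen_iff_eq_or_transGen.1 hc with h5 | h5
    · right; left
      rw [← h5]
      exact hib
    · exact ih h5

theorem merge_left (h : Good R l r A) {i j k : ℕ} (h1 : Conn A i j) :
    Conn A i k → (j = k ∨ Conn A j k ∨ Conn A k j) := by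
  unfold Conn at h1
  induction h1 using Relation.TransGen.head_induction_on with
  | single h1 =>
    intro h2
    unfold Conn at h2
    rw [Relation.TransGen.head'_iff] at h2
    obtain ⟨c, hc, hc2⟩ := h2
    have h3 := h.ul _ h1 _ hc rfl
    have h4 : j = c := (Prod.mk.inj h3).2
    subst h4
    rcases Relation.reflTransGen_iff_eq_or_transGen.1 hc2 with h5 | h5
    · left; exact h5.symm
    · right; left; exact h5
  | @head a b hab hbj ih =>
    intro h2
    unfold Conn at h2
    rw [Relation.TransGen.head'_iff] at h2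
    obtain ⟨c, hc, hc2⟩ := h2
    have h3 := h.ul _ hab _ hc rfl
    have h4 : b = c := (Prod.mk.inj h3).2
    subst h4
    rcases Relation.reflTransGen_iff_eq_or_transGen.1 hc2 with h5 | h5
    · right; right
      rw [h5]
      exact hbj
    · exact ih h5

/-- the relation generated by a set of arcs -/
def rel (A : Finset (ℕ × ℕ)) (i j : ℕ) : Prop := i = j ∨ Conn A i j ∨ Conn A j i

theorem rel_symm {i j : ℕ} (h : rel A i j) : rel A j i := by
  rcases h with h | h | h
  · exact Or.inl h.symm
  · exact Or.inr (Or.inr h)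
  · exact Or.inr (Or.inl h)

theorem rel_trans (hA : Good R l r A) {i j k : ℕ} (h1 : rel A i j) (h2 : rel A j k) :
    rel A i k := by
  rcases h1 with rfl | h1 | h1
  · exact h2
  · rcases h2 with rfl | h2 | h2
    · exact Or.inr (Or.inl h1)
    · exact Or.inr (Or.inl (Relation.TransGen.trans h1 h2))
    · rcases merge_right hA h1 h2 with h | h | h
      · exact Or.inl h
      · exact Or.inr (Or.inl h)
      · exact Or.inr (Or.inr h)
  · rcases h2 with rfl | h2 | h2
    · exact Or.inr (Or.inr h1)
    · rcases merge_left hA h1 h2 with h | h | h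
      · exact Or.inl h
      · exact Or.inr (Or.inl h)
      · exact Or.inr (Or.inr h)
    · exact Or.inr (Or.inr (Relation.TransGen.trans h2 h1))

theorem conn_of_rel (hA : Good R l r A) {i j : ℕ} (hij : i < j) (h : rel A i j) : Conn A i j := by
  rcases h with h | h | h
  · omega
  · exact h
  · have := conn_lt hA.lt h
    omega

theorem jump (hA : Good R l r A) {x y : ℕ} (h : Conn A x y) : ∀ m, x < m → m < y →
    Conn A x m ∨ ∃ u v, (u, v) ∈ A ∧ u < m ∧ m < v ∧ v ≤ y ∧ (x = u ∨ Conn A x u) := by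
  unfold Conn at h
  induction h with
  | single h =>
    intro m h1 h2
    exact Or.inr ⟨x, _, h, h1, h2, le_refl _, Or.inl rfl⟩
  | @tail b j' hib hbj ih =>
    intro m h1 h2
    have hb := hA.lt _ hbj
    simp only at hb
    rcases Nat.lt_trichotomy m b with h3 | h3 | h3
    · rcases ih m h1 h3 with h | ⟨u, v, h4, h5, h6, h7, h8⟩
      · exact Or.inl h
      · exact Or.inr ⟨u, v, h4, h5, h6, by omega, h8⟩
    · subst h3
      exact Or.inl hib
    · exact Or.inr ⟨b, j', hbj, h3, h2, le_refl _, Or.inr hib⟩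

theorem rel_nc (hA : Good R l r A) {a b c d : ℕ} (hab : a < b) (hbc : b < c) (hcd : c < d)
    (hac : rel A a c) (hbd : rel A b d) : rel A a b := by
  have h1 := conn_of_rel hA (by omega) hac
  have h2 := conn_of_rel hA (by omega) hbd
  rcases jump hA h1 b hab hbc with h | ⟨u, v, h4, h5, h6, h7, h8⟩
  · exact Or.inr (Or.inl h)
  · have hau : rel A a u := by
      rcases h8 with h8 | h8
      · exact Or.inl h8
      · exact Or.inr (Or.inl h8)
    have huv : rel A u v := Or.inr (Or.inl (Relation.TransGen.single h4))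
    rcases jump hA h2 v h6 (by omega) with h | ⟨u', v', h4', h5', h6', h7', h8'⟩
    · exact rel_trans hA (rel_trans hA hau huv) (rel_symm (Or.inr (Or.inl h)))
    · exfalso
      have hbu : b ≤ u' := by
        rcases h8' with h8' | h8'
        · omega
        · have := conn_lt hA.lt h8'
          omega
      exact hA.nc _ h4 _ h4' ⟨by simp only; omega, by simp only; omega, by simp only; omega⟩

theorem arc_iff (hA : Good R l r A) {i j : ℕ} :
    (i, j) ∈ A ↔ (i < j ∧ rel A i j ∧ ∀ m, i < m → m < j → ¬ rel A i m) := by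
  constructor
  · intro h
    refine ⟨hA.lt _ h, Or.inr (Or.inl (Relation.TransGen.single h)), ?_⟩
    intro m h1 h2 h3
    have h4 := conn_of_rel hA h1 h3
    unfold Conn at h4
    rw [Relation.TransGen.head'_iff] at h4
    obtain ⟨c, hc, hc2⟩ := h4
    have h5 := hA.ul _ h _ hc rfl
    have h6 : j = c := (Prod.mk.inj h5).2
    subst h6
    rcases Relation.reflTransGen_iff_eq_or_transGen.1 hc2 with h7 | h7
    · omega
    · have := conn_lt hA.lt h7
      omega
  · rintro ⟨h1, h2, h3⟩
    have h4 := conn_of_rel hA h1 h2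
    unfold Conn at h4
    rw [Relation.TransGen.head'_iff] at h4
    obtain ⟨c, hc, hc2⟩ := h4
    rcases Relation.reflTransGen_iff_eq_or_transGen.1 hc2 with h7 | h7
    · subst h7; exact hc
    · exfalso
      have h8 := conn_lt hA.lt h7
      have h9 := hA.lt _ hc
      exact h3 c h9 h8 (Or.inr (Or.inl (Relation.TransGen.single hc)))

end conn

section bridge
variable {α : Type} (n : ℕ) (q : ℕ → α)

open Classical in
/-- the arcs of an equivalence relation, on the positions `0, …, n` -/
noncomputable def arcs (s : Setoid α) : Finset (ℕ × ℕ) :=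
  (range (n + 1) ×ˢ range (n + 1)).filter (fun a => a.1 < a.2 ∧ s (q a.1) (q a.2) ∧
    ∀ m, a.1 < m → m < a.2 → ¬ s (q a.1) (q m))

theorem mem_arcs {s : Setoid α} {i j : ℕ} : (i, j) ∈ arcs n q s ↔
    (i < j ∧ j ≤ n ∧ s (q i) (q j) ∧ ∀ m, i < m → m < j → ¬ s (q i) (q m)) := by
  classical
  unfold arcs
  simp only [mem_filter, mem_product, mem_range]
  constructor
  · rintro ⟨⟨h1, h2⟩, h3, h4, h5⟩
    exact ⟨h3, by omega, h4, h5⟩
  · rintro ⟨h3, h2, h4, h5⟩
    exact ⟨⟨by omega, by omega⟩, h3, h4, h5⟩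

/-- combinatorial conditions on an equivalence relation -/
def Cond (R : ℕ → ℕ → Prop) (s : Setoid α) : Prop :=
  (∀ a b c d, a < b → b < c → c < d → d ≤ n → s (q a) (q c) → s (q b) (q d) → s (q a) (q b)) ∧
  (∀ i j, i < j → j ≤ n → s (q i) (q j) → (∀ m, i < m → m < j → ¬ s (q i) (q m)) → R i j)

variable {n q} {R : ℕ → ℕ → Prop}

theorem arcs_good {s : Setoid α} (hs : Cond n q R s) : Good R 0 (n + 1) (arcs n q s) := by
  refine ⟨?_, ?_, ?_, ?_, ?_, ?_, ?_⟩
  · intro a _; omega
  · rintro ⟨i, j⟩ ha; exact ((mem_arcs n q).1 ha).1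
  · rintro ⟨i, j⟩ ha; have := ((mem_arcs n q).1 ha).2.1; simp only; omega
  · rintro ⟨i, j⟩ ha
    obtain ⟨h1, h2, h3, h4⟩ := (mem_arcs n q).1 ha
    exact hs.2 i j h1 h2 h3 h4
  · rintro ⟨i, j⟩ ha ⟨i', j'⟩ hb h
    obtain ⟨h1, h2, h3, h4⟩ := (mem_arcs n q).1 ha
    obtain ⟨h1', h2', h3', h4'⟩ := (mem_arcs n q).1 hb
    simp only at h
    subst h
    rcases Nat.lt_trichotomy j j' with h5 | h5 | h5
    · exact absurd h3 (h4' j h1 h5)
    · rw [h5]
    · exact absurd h3' (h4 j' h1' h5)
  · rintro ⟨i, j⟩ ha ⟨i', j'⟩ hb h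
    obtain ⟨h1, h2, h3, h4⟩ := (mem_arcs n q).1 ha
    obtain ⟨h1', h2', h3', h4'⟩ := (mem_arcs n q).1 hb
    simp only at h
    subst h
    have h6 : s (q i) (q i') := s.trans h3 (s.symm h3')
    rcases Nat.lt_trichotomy i i' with h5 | h5 | h5
    · exact absurd h6 (h4 i' h5 h1')
    · rw [h5]
    · exact absurd (s.symm h6) (h4' i h5 h1)
  · rintro ⟨a, c⟩ ha ⟨b, d⟩ hb ⟨h5, h6, h7⟩
    obtain ⟨h1, h2, h3, h4⟩ := (mem_arcs n q).1 ha
    obtain ⟨h1', h2', h3', h4'⟩ := (mem_arcs n q).1 hb
    simp only at h5 h6 h7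
    exact h4 b h5 h6 (hs.1 a b c d h5 h6 h7 h2' h3 h3')

theorem conn_arcs {s : Setoid α} : ∀ d i j : ℕ, j = i + d + 1 → j ≤ n → s (q i) (q j) →
    Conn (arcs n q s) i j := by
  classical
  intro d
  induction d using Nat.strong_induction_on with
  | _ d ih =>
  intro i j hj hjn hs
  by_cases h : ∃ m, i < m ∧ m < j ∧ s (q i) (q m)
  · have hm := Nat.find_spec h
    have hmin := fun k (hk : k < Nat.find h) => Nat.find_min h hk
    set m := Nat.find h with hmdef
    have h1 : Conn (arcs n q s) m j := ih (j - m - 1) (by omega) m j (by omega) hjn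
      (s.trans (s.symm hm.2.2) hs)
    refine Relation.TransGen.head ?_ h1
    rw [mem_arcs]
    refine ⟨hm.1, by omega, hm.2.2, ?_⟩
    intro k hk1 hk2 hk3
    exact hmin k hk2 ⟨hk1, by omega, hk3⟩
  · push Not at h
    refine Relation.TransGen.single ?_
    rw [mem_arcs]
    exact ⟨by omega, hjn, hs, h⟩

theorem s_of_conn {s : Setoid α} {i j : ℕ} (h : Conn (arcs n q s) i j) : s (q i) (q j) := by
  unfold Conn at h
  induction h with
  | single h => exact ((mem_arcs n q).1 h).2.2.1
  | tail _ h ih => exact s.trans ih ((mem_arcs n q).1 h).2.2.1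

/-- the setoid of a set of arcs -/
def ofArcs (idx : α → ℕ) (A : Finset (ℕ × ℕ)) (hA : Good R 0 (n + 1) A) : Setoid α where
  r x y := rel A (idx x) (idx y)
  iseqv := ⟨fun _ => Or.inl rfl, fun h => rel_symm h, fun h h' => rel_trans hA h h'⟩

theorem ofArcs_q {idx : α → ℕ} {A : Finset (ℕ × ℕ)} (hA : Good R 0 (n + 1) A)
    (hidx : ∀ i, i < n → idx (q i) = i) (hn : idx (q n) = 0) (hc : Conn A 0 n)
    {i j : ℕ} (hi : i ≤ n) (hj : j ≤ n) :
    (ofArcs idx A hA) (q i) (q j) ↔ rel A i j := by
  have key : ∀ i, i ≤ n → rel A (idx (q i)) i := by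
    intro i hi
    rcases Nat.lt_or_ge i n with h | h
    · rw [hidx i h]; exact Or.inl rfl
    · have : i = n := by omega
      subst this
      rw [hn]
      exact Or.inr (Or.inl hc)
  show rel A (idx (q i)) (idx (q j)) ↔ rel A i j
  constructor
  · intro h
    exact rel_trans hA (rel_trans hA (rel_symm (key i hi)) h) (key j hj)
  · intro h
    exact rel_trans hA (rel_trans hA (key i hi) h) (rel_symm (key j hj))

theorem card_arcs [Finite α] {s : Setoid α} (hs : Cond n q R s) (hsurj : ∀ x, ∃ i, i ≤ n ∧ q i = x) :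
    (arcs n q s).card + Nat.card (Quotient s) = n + 1 := by
  classical
  have hg := arcs_good hs
  -- positions with a later related position
  set L := (range (n + 1)).filter (fun i => ∃ j, i < j ∧ j ≤ n ∧ s (q i) (q j)) with hL
  set M := (range (n + 1)).filter (fun i => ¬ ∃ j, i < j ∧ j ≤ n ∧ s (q i) (q j)) with hM
  have h1 : (arcs n q s).card = L.card := by
    refine Finset.card_bij (fun a _ => a.1) ?_ ?_ ?_
    · rintro ⟨i, j⟩ ha
      obtain ⟨h1, h2, h3, h4⟩ := (mem_arcs n q).1 ha
      rw [hL, mem_filter, mem_range]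
      exact ⟨by simp only; omega, j, h1, h2, h3⟩
    · intro a ha b hb h
      exact hg.ul a ha b hb h
    · intro i hi
      rw [hL, mem_filter] at hi
      obtain ⟨hi1, hi2⟩ := hi
      have hm := Nat.find_spec hi2
      refine ⟨(i, Nat.find hi2), ?_, rfl⟩
      rw [mem_arcs]
      refine ⟨hm.1, hm.2.1, hm.2.2, ?_⟩
      intro k hk1 hk2 hk3
      exact Nat.find_min hi2 hk2 ⟨hk1, by omega, hk3⟩
  have h2 : Nat.card (Quotient s) = M.card := by
    rw [← Nat.card_eq_finsetCard]
    symm
    refine Nat.card_eq_of_bijective (fun i : M => (Quotient.mk s (q i.1))) ⟨?_, ?_⟩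
    · rintro ⟨i, hi⟩ ⟨j, hj⟩ h
      have h' : s (q i) (q j) := Quotient.exact h
      rw [hM, mem_filter, mem_range] at hi hj
      apply Subtype.ext
      simp only
      rcases Nat.lt_trichotomy i j with h5 | h5 | h5
      · exact absurd ⟨j, h5, by omega, h'⟩ hi.2
      · exact h5
      · exact absurd ⟨i, h5, by omega, s.symm h'⟩ hj.2
    · intro c
      obtain ⟨x, rfl⟩ := Quotient.exists_rep c
      obtain ⟨i, hi, rfl⟩ := hsurj x
      set S := (range (n + 1)).filter (fun j => s (q i) (q j)) with hS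
      have hSne : S.Nonempty := ⟨i, by rw [hS, mem_filter, mem_range]; exact ⟨by omega, s.refl _⟩⟩
      obtain ⟨m, hmS, hmax⟩ := Finset.exists_max_image S id hSne
      rw [hS, mem_filter, mem_range] at hmS
      refine ⟨⟨m, ?_⟩, ?_⟩
      · rw [hM, mem_filter, mem_range]
        refine ⟨hmS.1, ?_⟩
        rintro ⟨j, hj1, hj2, hj3⟩
        have := hmax j (by rw [hS, mem_filter, mem_range]; exact ⟨by omega, s.trans hmS.2 hj3⟩)
        simp only [id] at this
        omega
      · exact Quotient.sound (s.symm hmS.2)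
  rw [h1, h2]
  have := Finset.card_filter_add_card_filter_not (s := range (n + 1))
    (fun i => ∃ j, i < j ∧ j ≤ n ∧ s (q i) (q j))
  rw [card_range] at this
  exact this

/-- **Weighted count of equivalence relations.** -/
theorem sum_setoid [Finite α] (idx : α → ℕ)
    (hidx : ∀ i, i < n → idx (q i) = i) (hidx2 : ∀ x, idx x < n ∧ q (idx x) = x)
    (hq : q n = q 0) (hn : 0 < n) (t : ℝ) (I : Finset (Setoid α))
    (hI : ∀ s, s ∈ I ↔ Cond n q R s) :
    t * ∑ s ∈ I, t ^ (n - Nat.card (Quotient s)) = V R t 0 n := by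
  classical
  rw [Finset.mul_sum]
  unfold V
  have hn0 : idx (q n) = 0 := by rw [hq]; exact hidx 0 hn
  have hsurj : ∀ x, ∃ i, i ≤ n ∧ q i = x := fun x => ⟨idx x, by have := (hidx2 x).1; omega,
    (hidx2 x).2⟩
  refine Finset.sum_bij (fun s _ => arcs n q s) ?_ ?_ ?_ ?_
  · intro s hs
    rw [hI] at hs
    rw [mem_filter, mem_GS]
    refine ⟨arcs_good hs, ?_⟩
    refine conn_arcs (n - 1) 0 n (by omega) (le_refl _) ?_
    rw [hq]
  · intro s hs s' hs' h
    rw [hI] at hs hs'
    ext x y
    have key : ∀ (s : Setoid α), s x y ↔ (idx x = idx y ∨ Conn (arcs n q s) (idx x) (idx y) ∨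
        Conn (arcs n q s) (idx y) (idx x)) := by
      intro s
      have hx := hidx2 x
      have hy := hidx2 y
      constructor
      · intro h
        rw [← hx.2, ← hy.2] at h
        rcases Nat.lt_trichotomy (idx x) (idx y) with h1 | h1 | h1
        · right; left
          exact conn_arcs (idx y - idx x - 1) _ _ (by omega) (by omega) h
        · left; exact h1
        · right; right
          exact conn_arcs (idx x - idx y - 1) _ _ (by omega) (by omega) (s.symm h)
      · rintro (h | h | h)
        · have : x = y := by rw [← hx.2, ← hy.2, h]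
          rw [this]
        · have := s_of_conn h
          rwa [hx.2, hy.2] at this
        · have := s_of_conn h
          rw [hx.2, hy.2] at this
          exact s.symm this
    show s x y ↔ s' x y
    rw [key s, key s', h]
  · intro A hA
    rw [mem_filter, mem_GS] at hA
    obtain ⟨hA, hc⟩ := hA
    have hof := fun i j (hi : i ≤ n) (hj : j ≤ n) =>
      ofArcs_q (idx := idx) (q := q) hA hidx hn0 hc hi hj
    have hcond : Cond n q R (ofArcs idx A hA) := by
      constructor
      · intro a b c d h1 h2 h3 h4 h5 h6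
        rw [hof _ _ (by omega) (by omega)] at h5 h6 ⊢
        exact rel_nc hA h1 h2 h3 h5 h6
      · intro i j h1 h2 h3 h4
        have h5 : (i, j) ∈ A := by
          rw [arc_iff hA]
          refine ⟨h1, (hof _ _ (by omega) h2).1 h3, ?_⟩
          intro m hm1 hm2 hm3
          exact h4 m hm1 hm2 ((hof _ _ (by omega) (by omega)).2 hm3)
        exact hA.rel _ h5
    refine ⟨ofArcs idx A hA, (hI _).2 hcond, ?_⟩
    ext ⟨i, j⟩
    rw [mem_arcs, arc_iff hA]
    constructor
    · rintro ⟨h1, h2, h3, h4⟩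
      refine ⟨h1, (hof _ _ (by omega) h2).1 h3, ?_⟩
      intro m hm1 hm2 hm3
      exact h4 m hm1 hm2 ((hof _ _ (by omega) (by omega)).2 hm3)
    · rintro ⟨h1, h3, h4⟩
      have h2 : j ≤ n := by
        have := conn_le hA.ub (conn_of_rel hA h1 h3)
        omega
      refine ⟨h1, h2, (hof _ _ (by omega) h2).2 h3, ?_⟩
      intro m hm1 hm2 hm3
      exact h4 m hm1 hm2 ((hof _ _ (by omega) (by omega)).1 hm3)
  · intro s hs
    rw [hI] at hs
    have h1 := card_arcs hs hsurj
    have h2 : 0 < Nat.card (Quotient s) := by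
      haveI : Nonempty (Quotient s) := ⟨Quotient.mk s (q 0)⟩
      exact Nat.card_pos
    -- at least one arc
    have h3 : 0 < (arcs n q s).card := by
      rw [Finset.card_pos]
      have hc : Conn (arcs n q s) 0 n := conn_arcs (n - 1) 0 n (by omega) (le_refl _) (by rw [hq])
      unfold Conn at hc
      rw [Relation.TransGen.head'_iff] at hc
      obtain ⟨c, hc, _⟩ := hc
      exact ⟨_, hc⟩
    rw [← pow_succ']
    congr 1
    omega

end bridge

end V11176.NCB
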