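import Pool.Agent.V11176.NCB.Geom3

set_option autoImplicit false

open Finset

namespace V11176.NCB

theorem det_rot (a b c : ℝ × ℝ) : det a b c = det b c a := by unfold det; ring

theorem det_aab (a b : ℝ × ℝ) : det a a b = 0 := by unfold det; ring
theorem det_abb (a b : ℝ × ℝ) : det a b b = 0 := by unfold det; ring
theorem det_aba (a b : ℝ × ℝ) : det a b a = 0 := by unfold det; ring

theorem lab_of {n : ℕ} (hn : 3 ≤ n) {p0 : ℕ → ℝ × ℝ}
    (hinj : ∀ i j, i < n → j < n → p0 i = p0 j → i = j)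
    (hO : ∀ i j k, i < j → j < k → k < n → 0 ≤ det (p0 i) (p0 j) (p0 k))
    (hnc : ∃ i j k, i < n ∧ j < n ∧ k < n ∧ det (p0 i) (p0 j) (p0 k) ≠ 0) :
    Lab n (fun i => p0 (i % n)) where
  hn := hn
  per i := by simp
  inj i j hij hj h := by
    have h1 := hinj _ _ (Nat.mod_lt i (by omega)) (Nat.mod_lt j (by omega)) h
    have h2 : n ∣ j - i := (Nat.modEq_iff_dvd' hij.le).1 h1
    have h3 := Nat.le_of_dvd (by omega) h2
    omega
  O i j k hij hjk hk := by
    have hshift : ∀ x, (x + i / n * n) % n = x % n := fun x => Nat.add_mul_mod_self_right x _ n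
    have ha0 : i / n * n ≤ i := Nat.div_mul_le_self i n
    have ha1 : i < i / n * n + n := by
      have h1 := Nat.mod_add_div' i n
      have h2 := Nat.mod_lt i (show 0 < n by omega)
      omega
    generalize i / n * n = s at hshift ha0 ha1
    obtain ⟨i, rfl⟩ : ∃ a', i = a' + s := ⟨i - s, by omega⟩
    obtain ⟨j, rfl⟩ : ∃ b', j = b' + s := ⟨j - s, by omega⟩
    obtain ⟨k, rfl⟩ : ∃ b', k = b' + s := ⟨k - s, by omega⟩
    rw [hshift, hshift, hshift]
    rcases Nat.eq_or_lt_of_le hij with h1 | h1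
    · have : i = j := by omega
      rw [this, det_aab]
    rcases Nat.eq_or_lt_of_le hjk with h2 | h2
    · have : j = k := by omega
      rw [this, det_abb]
    rcases Nat.eq_or_lt_of_le hk with h3 | h3
    · have : k = i + n := by omega
      rw [this, Nat.add_mod_right, det_aba]
    rw [Nat.mod_eq_of_lt (show i < n by omega)]
    by_cases hjn : j < n
    · rw [Nat.mod_eq_of_lt hjn]
      by_cases hkn : k < n
      · rw [Nat.mod_eq_of_lt hkn]
        exact hO i j k (by omega) (by omega) hkn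
      · obtain ⟨k, rfl⟩ : ∃ b', k = b' + n := ⟨k - n, by omega⟩
        rw [Nat.add_mod_right, Nat.mod_eq_of_lt (show k < n by omega), ← det_rot]
        exact hO k i j (by omega) (by omega) hjn
    · obtain ⟨j, rfl⟩ : ∃ b', j = b' + n := ⟨j - n, by omega⟩
      obtain ⟨k, rfl⟩ : ∃ b', k = b' + n := ⟨k - n, by omega⟩
      rw [Nat.add_mod_right, Nat.add_mod_right, Nat.mod_eq_of_lt (show k < n by omega),
        Nat.mod_eq_of_lt (show j < n by omega), det_rot]
      exact hO j k i (by omega) (by omega) (by omega)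
  nc := by
    obtain ⟨i, j, k, hi, hj, hk, h⟩ := hnc
    refine ⟨i, j, k, ?_⟩
    rw [Nat.mod_eq_of_lt hi, Nat.mod_eq_of_lt hj, Nat.mod_eq_of_lt hk]
    exact h

theorem exists_sorted {α β : Type} [LinearOrder β] [Inhabited α] (S : Finset α) (key : α → β)
    (hinj : ∀ x ∈ S, ∀ y ∈ S, key x = key y → x = y) :
    ∃ a : ℕ → α, (∀ i, i < S.card → a i ∈ S) ∧ (∀ x ∈ S, ∃ i, i < S.card ∧ a i = x) ∧
      (∀ i j, i < j → j < S.card → key (a i) < key (a j)) := by
  classical
  have hcard : (S.image key).card = S.card := Finset.card_image_of_injOn (fun x hx y hy h =>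
    hinj x hx y hy h)
  let e := (S.image key).orderEmbOfFin hcard
  have he : ∀ i : Fin S.card, ∃ x ∈ S, key x = e i := by
    intro i
    have := Finset.orderEmbOfFin_mem (S.image key) hcard i
    rw [Finset.mem_image] at this
    exact this
  choose f hf1 hf2 using he
  refine ⟨fun i => if h : i < S.card then f ⟨i, h⟩ else default, ?_, ?_, ?_⟩
  · intro i hi
    simp only [hi, dif_pos]
    exact hf1 _
  · intro x hx
    have h1 : key x ∈ Set.range e := by
      rw [Finset.range_orderEmbOfFin]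
      exact_mod_cast Finset.mem_image_of_mem key hx
    obtain ⟨i, hi⟩ := h1
    refine ⟨i.1, i.2, ?_⟩
    simp only [i.2, dif_pos]
    exact hinj _ (hf1 _) _ hx (by rw [hf2, ← hi])
  · intro i j hij hj
    simp only [hj, show i < S.card by omega, dif_pos]
    rw [hf2, hf2]
    exact e.strictMono hij

section sorting

/-- the functional that is positive away from `v` -/
def FF (v a : ℝ × ℝ) : ℝ := v.1 * (v.1 - a.1) + v.2 * (v.2 - a.2)

/-- the orthogonal functional -/
def GG (v a : ℝ × ℝ) : ℝ := v.1 * (v.2 - a.2) - v.2 * (v.1 - a.1)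

theorem ff_gg (v a b : ℝ × ℝ) : (v.1 ^ 2 + v.2 ^ 2) * det v a b = FF v a * GG v b - GG v a * FF v b := by
  unfold det FF GG; ring

/-- the slope -/
noncomputable def sl (v a : ℝ × ℝ) : ℝ := GG v a / FF v a

variable {v a b c : ℝ × ℝ}

theorem det_sl (ha : 0 < FF v a) (hb : 0 < FF v b) :
    (v.1 ^ 2 + v.2 ^ 2) * det v a b = FF v a * FF v b * (sl v b - sl v a) := by
  rw [ff_gg]
  unfold sl
  field_simp

theorem det_nonneg_iff (hv : 0 < v.1 ^ 2 + v.2 ^ 2) (ha : 0 < FF v a) (hb : 0 < FF v b) :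
    0 ≤ det v a b ↔ sl v a ≤ sl v b := by
  have h := det_sl ha hb
  have h1 : 0 < FF v a * FF v b := by positivity
  constructor
  · intro h2
    have : 0 ≤ FF v a * FF v b * (sl v b - sl v a) := by rw [← h]; positivity
    have := nonneg_of_mul_nonneg_right this h1
    linarith
  · intro h2
    have : 0 ≤ (v.1 ^ 2 + v.2 ^ 2) * det v a b := by
      rw [h]
      exact mul_nonneg h1.le (by linarith)
    exact nonneg_of_mul_nonneg_right this hv

theorem det_nonpos_iff (hv : 0 < v.1 ^ 2 + v.2 ^ 2) (ha : 0 < FF v a) (hb : 0 < FF v b) :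
    det v a b ≤ 0 ↔ sl v b ≤ sl v a := by
  rw [← det_nonneg_iff hv hb ha]
  have : det v b a = - det v a b := by unfold det; ring
  rw [this]
  constructor <;> intro h <;> linarith

/-- points on the same ray are proportional -/
theorem ray (hv : 0 < v.1 ^ 2 + v.2 ^ 2) (ha : 0 < FF v a) (hb : 0 < FF v b)
    (h : sl v a = sl v b) : a = v + (FF v a / FF v b) • (b - v) := by
  have h1 : GG v a * FF v b = GG v b * FF v a := by
    unfold sl at h
    rw [div_eq_div_iff ha.ne' hb.ne'] at h
    exact h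
  have h2 : (v.1 ^ 2 + v.2 ^ 2) ≠ 0 := hv.ne'
  have h3 : ∀ w : ℝ × ℝ, (v.1 ^ 2 + v.2 ^ 2) * (v.1 - w.1) = v.1 * FF v w - v.2 * GG v w := by
    intro w; unfold FF GG; ring
  have h4 : ∀ w : ℝ × ℝ, (v.1 ^ 2 + v.2 ^ 2) * (v.2 - w.2) = v.2 * FF v w + v.1 * GG v w := by
    intro w; unfold FF GG; ring
  have hb' := hb.ne'
  ext
  · simp only [Prod.fst_add, Prod.smul_fst, Prod.fst_sub, smul_eq_mul]
    have h5 : FF v b * (v.1 - a.1) = FF v a * (v.1 - b.1) := by
      apply mul_left_cancel₀ h2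
      have := h3 a
      have := h3 b
      linear_combination FF v b * h3 a - FF v a * h3 b - v.2 * h1
    field_simp
    linear_combination -h5
  · simp only [Prod.snd_add, Prod.smul_snd, Prod.snd_sub, smul_eq_mul]
    have h5 : FF v b * (v.2 - a.2) = FF v a * (v.2 - b.2) := by
      apply mul_left_cancel₀ h2
      linear_combination FF v b * h4 a - FF v a * h4 b + v.1 * h1
    field_simp
    linear_combination -h5

/-- the sorting key -/
noncomputable def key (P : Finset (ℝ × ℝ)) (v a : ℝ × ℝ) : ℝ ×ₗ ℝ :=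
  open Classical in
  toLex (sl v a, (if ∃ c ∈ P.erase v, sl v a < sl v c then 1 else -1) * FF v a)

theorem orient {P : Finset (ℝ × ℝ)} (hv : 0 < v.1 ^ 2 + v.2 ^ 2) (hF : ∀ w ∈ P, w ≠ v → 0 < FF v w)
    (hvP : v ∈ P) (ha : a ∈ P.erase v) (hb : b ∈ P.erase v) (hc : c ∈ P.erase v)
    (hab : key P v a < key P v b) (hbc : key P v b < key P v c)
    (hsupp : ∃ u : ℝ × ℝ, u ≠ 0 ∧ ∀ w ∈ P, u.1 * (w.1 - b.1) + u.2 * (w.2 - b.2) ≤ 0) :
    0 ≤ det a b c := by
  classical
  rw [Finset.mem_erase] at ha hb hc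
  have hFa := hF a ha.2 ha.1
  have hFb := hF b hb.2 hb.1
  have hFc := hF c hc.2 hc.1
  unfold key at hab hbc
  rw [Prod.Lex.toLex_lt_toLex] at hab hbc
  simp only at hab hbc
  have hsab : sl v a ≤ sl v b := by
    rcases hab with h | h
    · exact h.le
    · exact h.1.le
  have hsbc : sl v b ≤ sl v c := by
    rcases hbc with h | h
    · exact h.le
    · exact h.1.le
  have hD1 : 0 ≤ det v a b := (det_nonneg_iff hv hFa hFb).2 hsab
  have hD2 : 0 ≤ det v b c := (det_nonneg_iff hv hFb hFc).2 hsbc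
  have hsum : det a b c = det v a b + det v b c - det v a c := by unfold det; ring
  by_contra hcon
  push Not at hcon
  obtain ⟨u, hu0, hu⟩ := hsupp
  have hua := hu a ha.2
  have huv := hu v hvP
  have huc := hu c hc.2
  -- Cramer
  have hcr : det v a c * (b.1 - v.1) = det v b c * (a.1 - v.1) + det v a b * (c.1 - v.1) := by
    unfold det; ring
  have hcr2 : det v a c * (b.2 - v.2) = det v b c * (a.2 - v.2) + det v a b * (c.2 - v.2) := by
    unfold det; ring
  have hzero : (det v a c - det v a b - det v b c) * (u.1 * (v.1 - b.1) + u.2 * (v.2 - b.2)) +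
      det v b c * (u.1 * (a.1 - b.1) + u.2 * (a.2 - b.2)) +
      det v a b * (u.1 * (c.1 - b.1) + u.2 * (c.2 - b.2)) = 0 := by
    linear_combination (-u.1) * hcr - u.2 * hcr2
  have hpos : 0 < det v a c - det v a b - det v b c := by linarith
  have hperp : u.1 * (v.1 - b.1) + u.2 * (v.2 - b.2) = 0 := by
    by_contra hne
    have hlt : u.1 * (v.1 - b.1) + u.2 * (v.2 - b.2) < 0 := lt_of_le_of_ne huv hne
    have h1 := mul_neg_of_pos_of_neg hpos hlt
    have h2 := mul_nonpos_of_nonneg_of_nonpos hD2 hua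
    have h3 := mul_nonpos_of_nonneg_of_nonpos hD1 huc
    linarith
  -- the functional is a multiple of the determinant
  have hbv : 0 < (b.1 - v.1) ^ 2 + (b.2 - v.2) ^ 2 := sq_pos_of_ne (Ne.symm hb.1)
  have hu2 : 0 < u.1 ^ 2 + u.2 ^ 2 := by
    have := sq_pos_of_ne (a := (0 : ℝ × ℝ)) (b := u) (Ne.symm hu0)
    simpa using this
  set κ := (b.1 - v.1) * u.2 - (b.2 - v.2) * u.1 with hκ
  have hκ2 : κ ^ 2 = ((b.1 - v.1) ^ 2 + (b.2 - v.2) ^ 2) * (u.1 ^ 2 + u.2 ^ 2) := by
    rw [hκ]
    linear_combination (-(u.1 * (v.1 - b.1) + u.2 * (v.2 - b.2))) * hperp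
  have hκ0 : κ ≠ 0 := by
    intro h
    rw [h] at hκ2
    have : 0 < ((b.1 - v.1) ^ 2 + (b.2 - v.2) ^ 2) * (u.1 ^ 2 + u.2 ^ 2) := by positivity
    rw [← hκ2] at this
    norm_num at this
  have hκw : ∀ w ∈ P, κ * det v b w ≤ 0 := by
    intro w hw
    have h1 := hu w hw
    have h2 : κ * det v b w = ((b.1 - v.1) ^ 2 + (b.2 - v.2) ^ 2) *
        (u.1 * (w.1 - b.1) + u.2 * (w.2 - b.2)) := by
      rw [hκ]
      unfold det
      linear_combination ((b.1 - v.1) * (w.1 - b.1) + (b.2 - v.2) * (w.2 - b.2)) * hperp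
    rw [h2]
    exact mul_nonpos_of_nonneg_of_nonpos hbv.le h1
  rcases lt_or_gt_of_ne hκ0 with hneg | hpos'
  · -- `b` is in the first ray
    have hall : ∀ w ∈ P, 0 ≤ det v b w := by
      intro w hw
      have := hκw w hw
      by_contra h
      push Not at h
      have := mul_pos_of_neg_of_neg hneg h
      linarith
    have hsa : sl v b ≤ sl v a := (det_nonneg_iff hv hFb hFa).1 (hall a ha.2)
    have hsab' : sl v a = sl v b := le_antisymm hsab hsa
    rcases hab with h | ⟨_, h⟩
    · linarith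
    · rw [hsab'] at h
      by_cases hlast : ∃ c ∈ P.erase v, sl v b < sl v c
      · rw [if_pos hlast] at h
        have hray := ray hv hFa hFb hsab'
        have hμ : FF v a / FF v b < 1 := by rw [div_lt_one hFb]; linarith
        generalize FF v a / FF v b = μ at hray hμ
        have : det a b c = (1 - μ) * det v b c := by
          rw [hray]; unfold det; simp; ring
        have h1 : 0 ≤ (1 - μ) * det v b c := mul_nonneg (by linarith) hD2
        linarith
      · push Not at hlast
        have h1 := hlast c (by rw [Finset.mem_erase]; exact hc)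
        have h2 : det v a c ≤ 0 := (det_nonpos_iff hv hFa hFc).2 (by rw [hsab']; exact h1)
        linarith
  · have hall : ∀ w ∈ P, det v b w ≤ 0 := by
      intro w hw
      have := hκw w hw
      by_contra h
      push Not at h
      have := mul_pos hpos' h
      linarith
    have hsc : sl v c ≤ sl v b := (det_nonpos_iff hv hFb hFc).1 (hall c hc.2)
    have hsbc' : sl v c = sl v b := le_antisymm hsc hsbc
    rcases hbc with h | ⟨_, h⟩
    · linarith
    · have hlast : ¬ ∃ c ∈ P.erase v, sl v b < sl v c := by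
        rintro ⟨w, hw, h1⟩
        rw [Finset.mem_erase] at hw
        have := (det_nonpos_iff hv hFb (hF w hw.2 hw.1)).1 (hall w hw.2)
        linarith
      rw [hsbc', if_neg hlast] at h
      have hray := ray hv hFc hFb hsbc'
      have hμ : FF v c / FF v b < 1 := by rw [div_lt_one hFb]; linarith
      generalize FF v c / FF v b = μ at hray hμ
      have : det a b c = (1 - μ) * det v a b := by
        rw [hray]; unfold det; simp; ring
      have h1 : 0 ≤ (1 - μ) * det v a b := mul_nonneg (by linarith) hD1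
      linarith

theorem key_inj {P : Finset (ℝ × ℝ)} (hv : 0 < v.1 ^ 2 + v.2 ^ 2)
    (ha : 0 < FF v a) (hb : 0 < FF v b) (h : key P v a = key P v b) : a = b := by
  classical
  unfold key at h
  have h' := toLex_inj.1 h
  rw [Prod.mk.injEq] at h'
  obtain ⟨h1, h2⟩ := h'
  have h3 : FF v a = FF v b := by
    rw [h1] at h2
    apply mul_left_cancel₀ _ h2
    split_ifs <;> norm_num
  have h4 := ray hv ha hb h1
  rw [h4, h3, div_self hb.ne']
  simp

end sorting

theorem ff_pos {v w : ℝ × ℝ} (h : w.1 ^ 2 + w.2 ^ 2 ≤ v.1 ^ 2 + v.2 ^ 2) (hne : w ≠ v) :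
    0 < FF v w := by
  have h1 := sq_pos_of_ne hne
  have h2 : 2 * FF v w = (v.1 ^ 2 + v.2 ^ 2) - (w.1 ^ 2 + w.2 ^ 2) +
      ((v.1 - w.1) ^ 2 + (v.2 - w.2) ^ 2) := by
    unfold FF; ring
  linarith

/-- **Existence of a cyclic labelling.** -/
theorem exists_lab (P : Finset (ℝ × ℝ)) (hnc : ∃ a ∈ P, ∃ b ∈ P, ∃ c ∈ P, det a b c ≠ 0)
    (hsupp : ∀ b ∈ P, ∃ u : ℝ × ℝ, u ≠ 0 ∧ ∀ w ∈ P, u.1 * (w.1 - b.1) + u.2 * (w.2 - b.2) ≤ 0) :
    ∃ p : ℕ → ℝ × ℝ, Lab P.card p ∧ (∀ i, p i ∈ P) ∧ (∀ x ∈ P, ∃ i, i < P.card ∧ p i = x) ∧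
      (∀ i j, p 0 ∈ segment ℝ (p i) (p j) → p i = p 0 ∨ p j = p 0) := by
  classical
  obtain ⟨a, ha, b, hb, c, hc, habc⟩ := hnc
  obtain ⟨v, hvP, hvmax⟩ := Finset.exists_max_image P (fun w => w.1 ^ 2 + w.2 ^ 2) ⟨a, ha⟩
  have hab : a ≠ b := by rintro rfl; exact habc (det_aab _ _)
  have hbc : b ≠ c := by rintro rfl; exact habc (det_abb _ _)
  have hac : a ≠ c := by rintro rfl; exact habc (det_aba _ _)
  have hv : 0 < v.1 ^ 2 + v.2 ^ 2 := by
    have h1 := hvmax a ha
    have h2 := hvmax b hb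
    by_contra hcon
    push Not at hcon
    apply hab
    have e : ∀ w : ℝ × ℝ, w.1 ^ 2 + w.2 ^ 2 ≤ 0 → w = 0 := by
      intro w hw
      by_contra hne
      have := sq_pos_of_ne (a := (0 : ℝ × ℝ)) (b := w) (Ne.symm hne)
      simp only [Prod.fst_zero, Prod.snd_zero, sub_zero] at this
      linarith
    rw [e a (by linarith), e b (by linarith)]
  have hF : ∀ w ∈ P, w ≠ v → 0 < FF v w := fun w hw hne => ff_pos (hvmax w hw) hne
  have hFe : ∀ w ∈ P.erase v, 0 < FF v w := by
    intro w hw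
    rw [Finset.mem_erase] at hw
    exact hF w hw.2 hw.1
  have hcard3 : 3 ≤ P.card := by
    have : ({a, b, c} : Finset (ℝ × ℝ)) ⊆ P := by
      intro x hx
      simp only [Finset.mem_insert, Finset.mem_singleton] at hx
      rcases hx with rfl | rfl | rfl <;> assumption
    calc 3 = ({a, b, c} : Finset (ℝ × ℝ)).card := by
          rw [Finset.card_eq_three.2 ⟨a, b, c, hab, hac, hbc, rfl⟩]
      _ ≤ P.card := Finset.card_le_card this
  have hcard : (P.erase v).card = P.card - 1 := Finset.card_erase_of_mem hvP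
  obtain ⟨f, hf1, hf2, hf3⟩ := exists_sorted (P.erase v) (key P v)
    (fun x hx y hy h => key_inj hv (hFe x hx) (hFe y hy) h)
  rw [hcard] at hf1 hf2 hf3
  let p0 : ℕ → ℝ × ℝ := fun i => if i = 0 then v else f (i - 1)
  have hp00 : p0 0 = v := by simp [p0]
  have hp0s : ∀ i, 1 ≤ i → p0 i = f (i - 1) := by
    intro i hi
    have : i ≠ 0 := by omega
    simp [p0, this]
  have hinj : ∀ i j, i < P.card → j < P.card → p0 i = p0 j → i = j := by
    have key0 : ∀ i j, i < j → j < P.card → p0 i ≠ p0 j := by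
      intro i j hij hj h
      rw [hp0s j (by omega)] at h
      have h1 := hf1 (j - 1) (by omega)
      rcases Nat.eq_zero_or_pos i with rfl | hi
      · rw [hp00] at h
        rw [← h] at h1
        exact Finset.notMem_erase v P h1
      · rw [hp0s i hi] at h
        have := hf3 (i - 1) (j - 1) (by omega) (by omega)
        rw [h] at this
        exact lt_irrefl _ this
    intro i j hi hj h
    rcases Nat.lt_trichotomy i j with h1 | h1 | h1
    · exact absurd h (key0 i j h1 hj)
    · exact h1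
    · exact absurd h.symm (key0 j i h1 hi)
  have hsurj : ∀ x ∈ P, ∃ i, i < P.card ∧ p0 i = x := by
    intro x hx
    by_cases hxv : x = v
    · exact ⟨0, by omega, by rw [hp00, hxv]⟩
    · obtain ⟨i, hi, hi2⟩ := hf2 x (by rw [Finset.mem_erase]; exact ⟨hxv, hx⟩)
      exact ⟨i + 1, by omega, by rw [hp0s _ (by omega)]; exact hi2⟩
  have hmem : ∀ i, i < P.card → p0 i ∈ P := by
    intro i hi
    rcases Nat.eq_zero_or_pos i with rfl | hi'
    · rw [hp00]; exact hvP
    · rw [hp0s i hi']
      exact Finset.mem_of_mem_erase (hf1 _ (by omega))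
  have hO : ∀ i j k, i < j → j < k → k < P.card → 0 ≤ det (p0 i) (p0 j) (p0 k) := by
    intro i j k hij hjk hk
    rw [hp0s j (by omega), hp0s k (by omega)]
    have h1 := hf1 (j - 1) (by omega)
    have h2 := hf1 (k - 1) (by omega)
    rcases Nat.eq_zero_or_pos i with rfl | hi'
    · rw [hp00, det_nonneg_iff hv (hFe _ h1) (hFe _ h2)]
      have := hf3 (j - 1) (k - 1) (by omega) (by omega)
      unfold key at this
      rw [Prod.Lex.toLex_lt_toLex] at this
      rcases this with h | h
      · exact h.le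
      · exact h.1.le
    · rw [hp0s i hi']
      have h3 := hf1 (i - 1) (by omega)
      exact orient hv hF hvP h3 h1 h2 (hf3 _ _ (by omega) (by omega))
        (hf3 _ _ (by omega) (by omega)) (hsupp _ (Finset.mem_of_mem_erase h1))
  have hlab := lab_of hcard3 hinj hO (by
    obtain ⟨i, hi, rfl⟩ := hsurj a ha
    obtain ⟨j, hj, rfl⟩ := hsurj b hb
    obtain ⟨k, hk, rfl⟩ := hsurj c hc
    exact ⟨i, j, k, hi, hj, hk, habc⟩)
  refine ⟨fun i => p0 (i % P.card), hlab, ?_, ?_, ?_⟩
  · intro i
    exact hmem _ (Nat.mod_lt _ (by omega))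
  · intro x hx
    obtain ⟨i, hi, hi2⟩ := hsurj x hx
    refine ⟨i, hi, ?_⟩
    simp only
    rw [Nat.mod_eq_of_lt hi]; exact hi2
  · intro i j h
    simp only [Nat.zero_mod] at h ⊢
    rw [hp00] at h ⊢
    by_contra hcon
    push Not at hcon
    have h1 := hF _ (hmem (i % P.card) (Nat.mod_lt _ (by omega))) hcon.1
    have h2 := hF _ (hmem (j % P.card) (Nat.mod_lt _ (by omega))) hcon.2
    rw [mem_seg] at h
    obtain ⟨t, ht0, ht1, ht⟩ := h
    generalize p0 (i % P.card) = x at ht h1
    generalize p0 (j % P.card) = y at ht h2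
    have h3 : (1 - t) * FF v x + t * FF v y = 0 := by
      have e1 := congrArg Prod.fst ht
      have e2 := congrArg Prod.snd ht
      simp only [Prod.fst_add, Prod.smul_fst, Prod.fst_sub, smul_eq_mul, Prod.snd_add,
        Prod.smul_snd, Prod.snd_sub] at e1 e2
      unfold FF
      linear_combination v.1 * e1 + v.2 * e2
    rcases ht0.eq_or_lt with rfl | h4
    · linarith
    · have h5 : 0 < t * FF v y := by positivity
      have h6 : 0 ≤ (1 - t) * FF v x := mul_nonneg (by linarith) h1.le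
      linarith

end V11176.NCB
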