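import Pool.Agent.V11176.NCB.Bridge

set_option autoImplicit false

open Finset

namespace V11176.NCB

/-- twice the signed area of the triangle `a b c` -/
def det (a b c : ℝ × ℝ) : ℝ := (b.1 - a.1) * (c.2 - a.2) - (b.2 - a.2) * (c.1 - a.1)

section lines

theorem param {a b x : ℝ × ℝ} (hab : a ≠ b) (h : det a b x = 0) :
    ∃ s : ℝ, x = a + s • (b - a) := by
  unfold det at h
  by_cases h1 : b.1 = a.1
  · have h2 : b.2 - a.2 ≠ 0 := by
      intro h2
      exact hab (Prod.ext h1.symm (by linarith))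
    refine ⟨(x.2 - a.2) / (b.2 - a.2), ?_⟩
    rw [h1] at h
    have h3 : x.1 - a.1 = 0 := by
      have : (b.2 - a.2) * (x.1 - a.1) = 0 := by linarith
      rcases mul_eq_zero.1 this with h | h
      · exact absurd h h2
      · exact h
    ext
    · simp [h1]; linarith
    · simp; field_simp; ring
  · have h2 : b.1 - a.1 ≠ 0 := fun h => h1 (by linarith)
    refine ⟨(x.1 - a.1) / (b.1 - a.1), ?_⟩
    ext
    · simp; field_simp; ring
    · simp; field_simp; linarith

theorem det_param {a b : ℝ × ℝ} (s t : ℝ) (z : ℝ × ℝ) :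
    det (a + s • (b - a)) (a + t • (b - a)) z = (t - s) * det a b z := by
  unfold det
  simp
  ring

theorem det_param3 {a b : ℝ × ℝ} (s t u : ℝ) :
    det (a + s • (b - a)) (a + t • (b - a)) (a + u • (b - a)) = 0 := by
  unfold det
  simp
  ring

theorem col_of_line {a b x y z : ℝ × ℝ} (hab : a ≠ b) (hx : det a b x = 0) (hy : det a b y = 0)
    (hz : det a b z = 0) : det x y z = 0 := by
  obtain ⟨s, rfl⟩ := param hab hx
  obtain ⟨t, rfl⟩ := param hab hy
  obtain ⟨u, rfl⟩ := param hab hz
  exact det_param3 s t u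

theorem line_ext {a b x y z : ℝ × ℝ} (hab : a ≠ b) (hx : det a b x = 0) (hy : det a b y = 0)
    (hxy : x ≠ y) (hz : det x y z = 0) : det a b z = 0 := by
  obtain ⟨s, rfl⟩ := param hab hx
  obtain ⟨t, rfl⟩ := param hab hy
  rw [det_param] at hz
  rcases mul_eq_zero.1 hz with h | h
  · exfalso
    apply hxy
    have : t = s := by linarith
    rw [this]
  · exact h

theorem mem_seg {a b x : ℝ × ℝ} : x ∈ segment ℝ a b ↔ ∃ t : ℝ, 0 ≤ t ∧ t ≤ 1 ∧ x = a + t • (b - a) := by
  rw [segment_eq_image']
  constructor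
  · rintro ⟨t, ht, rfl⟩
    exact ⟨t, ht.1, ht.2, rfl⟩
  · rintro ⟨t, h1, h2, rfl⟩
    exact ⟨t, ⟨h1, h2⟩, rfl⟩

theorem col3 {a b c : ℝ × ℝ} (hac : a ≠ c) (h : det a b c = 0) :
    b ∈ segment ℝ a c ∨ c ∈ segment ℝ b a ∨ a ∈ segment ℝ c b := by
  have h' : det a c b = 0 := by unfold det at h ⊢; linarith
  obtain ⟨s, rfl⟩ := param hac h'
  by_cases h1 : s < 0
  · right; right
    rw [mem_seg]
    refine ⟨1 / (1 - s), by apply div_nonneg <;> linarith, ?_, ?_⟩
    · rw [div_le_one (by linarith)]; linarith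
    · have : (1 - s) ≠ 0 := by linarith
      ext <;> simp <;> field_simp <;> ring
  · by_cases h2 : s ≤ 1
    · left
      rw [mem_seg]
      exact ⟨s, by linarith, h2, rfl⟩
    · right; left
      rw [mem_seg]
      refine ⟨1 - 1 / s, ?_, ?_, ?_⟩
      · have : 1 / s ≤ 1 := by rw [div_le_one (by linarith)]; linarith
        linarith
      · have : 0 ≤ 1 / s := by apply div_nonneg <;> linarith
        linarith
      · have : s ≠ 0 := by linarith
        ext <;> simp <;> field_simp <;> ring

end lines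

/-- a cyclic counterclockwise labelling -/
structure Lab (n : ℕ) (p : ℕ → ℝ × ℝ) : Prop where
  hn : 3 ≤ n
  per : ∀ i, p (i + n) = p i
  inj : ∀ i j, i < j → j < i + n → p i ≠ p j
  O : ∀ i j k, i ≤ j → j ≤ k → k ≤ i + n → 0 ≤ det (p i) (p j) (p k)
  nc : ∃ i j k, det (p i) (p j) (p k) ≠ 0

/-- the point with index `l` is interior to a side -/
def flat (p : ℕ → ℝ × ℝ) (l : ℕ) : Prop := det (p (l - 1)) (p l) (p (l + 1)) = 0

/-- all points strictly between the indices `i` and `j` are flat -/
def Run (p : ℕ → ℝ × ℝ) (i j : ℕ) : Prop := ∀ l, i < l → l < j → flat p l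

section lab
variable {n : ℕ} {p : ℕ → ℝ × ℝ} (L : Lab n p)
include L

theorem Lab.perm (i c : ℕ) : p (i + c * n) = p i := by
  induction c with
  | zero => simp
  | succ c ih => rw [Nat.succ_mul, ← Nat.add_assoc, L.per, ih]

theorem Lab.flat_per {l : ℕ} (hl : 1 ≤ l) : flat p (l + n) ↔ flat p l := by
  unfold flat
  have h1 : l + n - 1 = (l - 1) + n := by omega
  have h2 : l + n + 1 = (l + 1) + n := by omega
  rw [h1, h2, L.per, L.per, L.per]

/-- representative in a window -/
theorem Lab.rep (a i : ℕ) : ∃ j, a ≤ j ∧ j < a + n ∧ p j = p i := by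
  have hn := L.hn
  have h1 : a ≤ a * n := Nat.le_mul_of_pos_right a (by omega)
  obtain ⟨x, hx⟩ : ∃ x, x + a = i + a * n := ⟨i + a * n - a, by omega⟩
  have hlt := Nat.mod_lt x (show 0 < n by omega)
  have hmd := Nat.mod_add_div' x n
  refine ⟨a + x % n, by omega, by omega, ?_⟩
  rw [← L.perm _ (x / n), ← L.perm i a]
  congr 1
  omega

theorem Lab.col {i j : ℕ} (h : Run p i j) : ∀ d, i + 1 + d ≤ j →
    det (p i) (p (i + 1)) (p (i + 1 + d)) = 0 := by
  have hn := L.hn
  have h0 : p i ≠ p (i + 1) := L.inj _ _ (by omega) (by omega)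
  have key : ∀ d, i + 1 + d ≤ j → det (p i) (p (i + 1)) (p (i + d)) = 0 ∧
      det (p i) (p (i + 1)) (p (i + 1 + d)) = 0 := by
    intro d
    induction d with
    | zero => intro _; constructor <;> (unfold det; simp; try ring)
    | succ d ih =>
      intro hd
      obtain ⟨h1, h2⟩ := ih (by omega)
      have e1 : i + (d + 1) = i + 1 + d := by omega
      refine ⟨by rw [e1]; exact h2, ?_⟩
      have h3 := h (i + 1 + d) (by omega) (by omega)
      unfold flat at h3
      have e2 : i + 1 + d - 1 = i + d := by omega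
      have e3 : i + 1 + (d + 1) = i + 1 + d + 1 := by omega
      rw [e2] at h3
      rw [e3]
      refine line_ext h0 h1 h2 ?_ h3
      have := L.inj (i + d) (i + 1 + d) (by omega) (by omega)
      exact this
  exact fun d hd => (key d hd).2

theorem Lab.col' {i j l : ℕ} (h : Run p i j) (h1 : i ≤ l) (h2 : l ≤ j) :
    det (p i) (p (i + 1)) (p l) = 0 := by
  rcases Nat.eq_or_lt_of_le h1 with rfl | h3
  · unfold det; ring
  · have := L.col h (l - (i + 1)) (by omega)
    rwa [show i + 1 + (l - (i + 1)) = l by omega] at this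

theorem Lab.noflat {i j : ℕ} (hij : i + n ≤ j) (h : Run p i j) : False := by
  have hn := L.hn
  obtain ⟨a, b, c, habc⟩ := L.nc
  obtain ⟨a', ha1, ha2, ha3⟩ := L.rep i a
  obtain ⟨b', hb1, hb2, hb3⟩ := L.rep i b
  obtain ⟨c', hc1, hc2, hc3⟩ := L.rep i c
  apply habc
  rw [← ha3, ← hb3, ← hc3]
  exact col_of_line (L.inj i (i + 1) (by omega) (by omega)) (L.col' h ha1 (by omega))
    (L.col' h hb1 (by omega)) (L.col' h hc1 (by omega))

/-- points of a flat run are between its endpoints -/
theorem Lab.A {i j m : ℕ} (h : Run p i j) (him : i ≤ m) (hmj : m ≤ j) (hj : j < i + n) :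
    p m ∈ segment ℝ (p i) (p j) := by
  have hn := L.hn
  rcases Nat.eq_or_lt_of_le him with rfl | him
  · exact left_mem_segment _ _ _
  rcases Nat.eq_or_lt_of_le hmj with rfl | hmj
  · exact right_mem_segment _ _ _
  have h0 : p i ≠ p (i + 1) := L.inj _ _ (by omega) (by omega)
  -- a point off the line
  have hw : ∃ k, j < k ∧ k < i + n ∧ det (p i) (p (i + 1)) (p k) ≠ 0 := by
    by_contra hcon
    push Not at hcon
    have hall : ∀ a, det (p i) (p (i + 1)) (p a) = 0 := by
      intro a
      obtain ⟨a', ha1, ha2, ha3⟩ := L.rep i a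
      rw [← ha3]
      by_cases h1 : a' ≤ j
      · exact L.col' h ha1 h1
      · exact hcon a' (by omega) ha2
    obtain ⟨a, b, c, habc⟩ := L.nc
    exact habc (col_of_line h0 (hall a) (hall b) (hall c))
  obtain ⟨k, hk1, hk2, hk3⟩ := hw
  have hpos : 0 < det (p i) (p (i + 1)) (p k) :=
    lt_of_le_of_ne (L.O _ _ _ (by omega) (by omega) (by omega)) (Ne.symm hk3)
  obtain ⟨s, hs⟩ := param h0 (L.col' h him.le hmj.le)
  obtain ⟨t, ht⟩ := param h0 (L.col' h (him.le.trans hmj.le) (le_refl j))
  have e0 : p i = p i + (0 : ℝ) • (p (i + 1) - p i) := by simp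
  have h1 : 0 ≤ det (p i) (p m) (p k) := L.O _ _ _ (by omega) (by omega) (by omega)
  have h2 : 0 ≤ det (p m) (p j) (p k) := L.O _ _ _ (by omega) (by omega) (by omega)
  rw [hs] at h1
  nth_rewrite 1 [e0] at h1
  rw [det_param] at h1
  rw [hs, ht, det_param] at h2
  have hs0 : 0 ≤ s := by nlinarith
  have hst : s ≤ t := by nlinarith
  have hs1 : s ≠ 0 := by
    rintro rfl
    apply L.inj i m (by omega) (by omega)
    rw [hs]; simp
  have hspos : 0 < s := lt_of_le_of_ne hs0 (Ne.symm hs1)
  have htpos : 0 < t := by linarith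
  rw [mem_seg]
  refine ⟨s / t, by positivity, by rw [div_le_one htpos]; exact hst, ?_⟩
  rw [hs, ht]
  ext <;> simp <;> field_simp

theorem Lab.B0 {i j m l : ℕ} (him : i < m) (hmj : m < j) (hj : j < i + n)
    (h : p m ∈ segment ℝ (p i) (p j)) (hil : i ≤ l) (hlj : l ≤ j) : det (p i) (p j) (p l) = 0 := by
  have hn := L.hn
  rw [mem_seg] at h
  obtain ⟨t, ht0, ht1, ht⟩ := h
  have ht0' : 0 < t := by
    rcases ht0.eq_or_lt with rfl | h
    · exfalso
      apply L.inj i m (by omega) (by omega)
      rw [ht]; simp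
    · exact h
  have ht1' : t < 1 := by
    rcases ht1.eq_or_lt with rfl | h
    · exfalso
      apply L.inj m j (by omega) (by omega)
      rw [ht]; simp
    · exact h
  have e0 : p i = p i + (0 : ℝ) • (p j - p i) := by simp
  have e1 : p j = p i + (1 : ℝ) • (p j - p i) := by simp
  have h1 : 0 ≤ det (p i) (p l) (p j) := L.O _ _ _ (by omega) (by omega) (by omega)
  have h1' : det (p i) (p l) (p j) = - det (p i) (p j) (p l) := by unfold det; ring
  rcases le_total l m with h2 | h2
  · have h3 : 0 ≤ det (p l) (p m) (p j) := L.O _ _ _ (by omega) (by omega) (by omega)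
    have h4 : det (p l) (p m) (p j) = det (p m) (p j) (p l) := by unfold det; ring
    have h5 : det (p m) (p j) (p l) = (1 - t) * det (p i) (p j) (p l) := by
      rw [ht]; unfold det; simp; ring
    rw [h4, h5] at h3
    rw [h1'] at h1
    have h6 : 0 ≤ det (p i) (p j) (p l) := by
      by_contra hneg
      push Not at hneg
      nlinarith [mul_pos (show 0 < 1 - t by linarith) (neg_pos.2 hneg)]
    linarith
  · have h3 : 0 ≤ det (p i) (p m) (p l) := L.O _ _ _ (by omega) (by omega) (by omega)
    have h5 : det (p i) (p m) (p l) = t * det (p i) (p j) (p l) := by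
      rw [ht]; unfold det; simp; ring
    rw [h5] at h3
    rw [h1'] at h1
    have h6 : 0 ≤ det (p i) (p j) (p l) := by
      by_contra hneg
      push Not at hneg
      nlinarith [mul_pos ht0' (neg_pos.2 hneg)]
    linarith

theorem Lab.B {i j m : ℕ} (him : i < m) (hmj : m < j) (hj : j < i + n)
    (h : p m ∈ segment ℝ (p i) (p j)) : Run p i j := by
  intro l h1 h2
  unfold flat
  exact col_of_line (L.inj i j (by omega) (by omega))
    (L.B0 him hmj hj h (by omega) (by omega)) (L.B0 him hmj hj h (by omega) (by omega))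
    (L.B0 him hmj hj h (by omega) (by omega))

/-- trichotomy for three collinear points -/
theorem Lab.tri {i m j : ℕ} (him : i < m) (hmj : m < j) (hj : j < i + n)
    (h : det (p i) (p m) (p j) = 0) : Run p i j ∨ Run p m (i + n) ∨ Run p j (m + n) := by
  rcases col3 (L.inj i j (by omega) (by omega)) h with h | h | h
  · left; exact L.B him hmj hj h
  · right; left
    rw [← L.per i] at h
    exact L.B hmj hj (by omega) h
  · right; right
    rw [← L.per i, ← L.per m] at h
    exact L.B hj (by omega) (by omega) h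

end lab

end V11176.NCB
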