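import Pool.Agent.V11176.NCB.Geom

set_option autoImplicit false

open Finset

namespace V11176.NCB

theorem convex_lex (g h : ℝ × ℝ → ℝ)
    (hg : ∀ (x y : ℝ × ℝ) (a b : ℝ), a + b = 1 → g (a • x + b • y) = a * g x + b * g y)
    (hh : ∀ (x y : ℝ × ℝ) (a b : ℝ), a + b = 1 → h (a • x + b • y) = a * h x + b * h y) :
    Convex ℝ {w | g w < 0 ∨ (g w = 0 ∧ 0 < h w)} := by
  intro x hx y hy a b ha hb hab
  simp only [Set.mem_setOf_eq] at hx hy ⊢
  rw [hg x y a b hab, hh x y a b hab]
  rcases ha.eq_or_lt with rfl | ha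
  · have : b = 1 := by linarith
    subst this
    simpa using hy
  rcases hb.eq_or_lt with rfl | hb
  · have : a = 1 := by linarith
    subst this
    simpa using hx
  rcases hx with hx | ⟨hx, hx'⟩
  · rcases hy with hy | ⟨hy, hy'⟩
    · left; nlinarith
    · left; rw [hy]; nlinarith
  · rcases hy with hy | ⟨hy, hy'⟩
    · left; rw [hx]; nlinarith
    · right; rw [hx, hy]
      exact ⟨by ring, by positivity⟩

theorem convex_le (g : ℝ × ℝ → ℝ)
    (hg : ∀ (x y : ℝ × ℝ) (a b : ℝ), a + b = 1 → g (a • x + b • y) = a * g x + b * g y) :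
    Convex ℝ {w | g w ≤ 0} := by
  intro x hx y hy a b ha hb hab
  simp only [Set.mem_setOf_eq] at hx hy ⊢
  rw [hg x y a b hab]
  nlinarith [mul_nonneg ha (neg_nonneg.2 hx), mul_nonneg hb (neg_nonneg.2 hy)]

theorem det_aff (c d : ℝ × ℝ) (x y : ℝ × ℝ) (a b : ℝ) (hab : a + b = 1) :
    det c d (a • x + b • y) = a * det c d x + b * det c d y := by
  have : b = 1 - a := by linarith
  subst this
  unfold det
  simp
  ring

/-- an inner product functional -/
def ip (u v w : ℝ × ℝ) : ℝ := (v.1 - u.1) * (w.1 - v.1) + (v.2 - u.2) * (w.2 - v.2)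

theorem ip_aff (c d : ℝ × ℝ) (x y : ℝ × ℝ) (a b : ℝ) (hab : a + b = 1) :
    ip c d (a • x + b • y) = a * ip c d x + b * ip c d y := by
  have : b = 1 - a := by linarith
  subst this
  unfold ip
  simp
  ring

theorem sq_pos_of_ne {a b : ℝ × ℝ} (h : a ≠ b) : 0 < (b.1 - a.1) ^ 2 + (b.2 - a.2) ^ 2 := by
  by_contra hcon
  push Not at hcon
  apply h
  have h1 : (b.1 - a.1) ^ 2 = 0 := by nlinarith [sq_nonneg (b.1 - a.1), sq_nonneg (b.2 - a.2)]
  have h2 : (b.2 - a.2) ^ 2 = 0 := by nlinarith [sq_nonneg (b.1 - a.1), sq_nonneg (b.2 - a.2)]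
  have h3 := pow_eq_zero_iff (two_ne_zero) |>.1 h1
  have h4 := pow_eq_zero_iff (two_ne_zero) |>.1 h2
  ext <;> linarith

/-- if `v` is strictly between `w` and `u` then `ip u v w > 0` -/
theorem ip_pos {u v w : ℝ × ℝ} (h : v ∈ segment ℝ w u) (h1 : v ≠ w) (h2 : v ≠ u) :
    0 < ip u v w := by
  rw [mem_seg] at h
  obtain ⟨t, h3, h4, h5⟩ := h
  have h6 : 0 < t := by
    rcases h3.eq_or_lt with rfl | h
    · exfalso; apply h1; rw [h5]; simp
    · exact h
  have h7 : t < 1 := by
    rcases h4.eq_or_lt with rfl | h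
    · exfalso; apply h2; rw [h5]; simp
    · exact h
  have h8 : w ≠ u := by
    rintro rfl
    apply h1; rw [h5]; simp
  have h9 : ip u v w = t * (1 - t) * ((u.1 - w.1) ^ 2 + (u.2 - w.2) ^ 2) := by
    rw [h5]; unfold ip; simp; ring
  rw [h9]
  have := sq_pos_of_ne h8
  have h10 : 0 < 1 - t := by linarith
  positivity

/-- if `w` is between `v` and `u` then `ip u v w ≤ 0` -/
theorem ip_nonpos {u v w : ℝ × ℝ} (h : w ∈ segment ℝ v u) : ip u v w ≤ 0 := by
  rw [mem_seg] at h
  obtain ⟨t, h3, h4, h5⟩ := h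
  have h9 : ip u v w = - (t * ((u.1 - v.1) ^ 2 + (u.2 - v.2) ^ 2)) := by
    rw [h5]; unfold ip; simp; ring
  rw [h9]
  have : 0 ≤ t * ((u.1 - v.1) ^ 2 + (u.2 - v.2) ^ 2) := by positivity
  linarith

section main
variable {α : Type} {n : ℕ} {p : ℕ → ℝ × ℝ} (L : Lab n p) {pt : α → ℝ × ℝ} {q : ℕ → α}
  (hinj : Function.Injective pt) (hpq : ∀ i, pt (q i) = p i) (hsurj : ∀ x, ∃ i, q i = x)

/-- the convex hull of the class of `x` -/
def hull (pt : α → ℝ × ℝ) (r : Setoid α) (x : α) : Set (ℝ × ℝ) := convexHull ℝ (pt '' {z | r x z})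

/-- cyclic noncrossing condition -/
def C1 (n : ℕ) (q : ℕ → α) (r : Setoid α) : Prop := ∀ a b c d, a < b → b < c → c < d → d < a + n →
  r (q a) (q c) → r (q b) (q d) → r (q a) (q b)

/-- cyclic gap condition -/
def C2 (n : ℕ) (p : ℕ → ℝ × ℝ) (q : ℕ → α) (r : Setoid α) : Prop := ∀ i j, i + 1 < j → j < i + n →
  r (q i) (q j) → (∀ m, i < m → m < j → ¬ r (q i) (q m)) → ¬ Run p i j

include L hinj hpq

theorem qper (i : ℕ) : q (i + n) = q i := by
  apply hinj
  rw [hpq, hpq, L.per]

theorem qperm (i c : ℕ) : q (i + c * n) = q i := by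
  apply hinj
  rw [hpq, hpq, L.perm]

theorem q_ne {i j : ℕ} (h1 : i < j) (h2 : j < i + n) : q i ≠ q j := by
  intro h
  apply L.inj i j h1 h2
  rw [← hpq, ← hpq, h]

theorem qrep (a i : ℕ) : ∃ j, a ≤ j ∧ j < a + n ∧ q j = q i := by
  obtain ⟨j, h1, h2, h3⟩ := L.rep a i
  exact ⟨j, h1, h2, hinj (by rw [hpq, hpq, h3])⟩

include hsurj

theorem main_disj {r : Setoid α} (h1 : C1 n q r) (h2 : C2 n p q r) {x y : α} (hxy : ¬ r x y)
    (hx2 : ∃ x', x' ≠ x ∧ r x x') : Disjoint (hull pt r x) (hull pt r y) := by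
  classical
  have hn := L.hn
  obtain ⟨Y, hY⟩ := hsurj y
  have hYn : q (Y + n) = y := by rw [qper L hinj hpq, hY]
  -- representatives of elements
  have hrep : ∀ (a : ℕ) (z : α), ∃ j, a ≤ j ∧ j < a + n ∧ q j = z := by
    intro a z
    obtain ⟨k, hk⟩ := hsurj z
    obtain ⟨j, h1, h2, h3⟩ := qrep L hinj hpq a k
    exact ⟨j, h1, h2, by rw [h3, hk]⟩
  -- the last element of the class of `x` before `y`
  obtain ⟨i, hi1, hi2, hi3, himax⟩ : ∃ i, Y < i ∧ i < Y + n ∧ r x (q i) ∧
      ∀ l, Y < l → l < Y + n → r x (q l) → l ≤ i := by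
    let S := (Finset.Ioo Y (Y + n)).filter (fun l => r x (q l))
    have hS : S.Nonempty := by
      obtain ⟨j, h1, h2, h3⟩ := hrep Y x
      refine ⟨j, ?_⟩
      rw [Finset.mem_filter, Finset.mem_Ioo]
      refine ⟨⟨?_, h2⟩, by rw [h3]⟩
      rcases Nat.eq_or_lt_of_le h1 with rfl | h
      · exfalso; apply hxy; rw [← h3, hY]
      · exact h
    obtain ⟨i, hi, hmax⟩ := Finset.exists_max_image S id hS
    rw [Finset.mem_filter, Finset.mem_Ioo] at hi
    refine ⟨i, hi.1.1, hi.1.2, hi.2, ?_⟩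
    intro l hl1 hl2 hl3
    exact hmax l (by rw [Finset.mem_filter, Finset.mem_Ioo]; exact ⟨⟨hl1, hl2⟩, hl3⟩)
  obtain ⟨j, hj1, hj2, hj3, hjmin⟩ : ∃ j, Y + n < j ∧ j < Y + n + n ∧ r x (q j) ∧
      ∀ l, Y + n < l → l < Y + n + n → r x (q l) → j ≤ l := by
    let S := (Finset.Ioo (Y + n) (Y + n + n)).filter (fun l => r x (q l))
    have hS : S.Nonempty := by
      obtain ⟨j, h1, h2, h3⟩ := hrep (Y + n) x
      refine ⟨j, ?_⟩
      rw [Finset.mem_filter, Finset.mem_Ioo]
      refine ⟨⟨?_, h2⟩, by rw [h3]⟩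
      rcases Nat.eq_or_lt_of_le h1 with rfl | h
      · exfalso; apply hxy; rw [← h3, hYn]
      · exact h
    obtain ⟨i, hi, hmax⟩ := Finset.exists_min_image S id hS
    rw [Finset.mem_filter, Finset.mem_Ioo] at hi
    refine ⟨i, hi.1.1, hi.1.2, hi.2, ?_⟩
    intro l hl1 hl2 hl3
    exact hmax l (by rw [Finset.mem_filter, Finset.mem_Ioo]; exact ⟨⟨hl1, hl2⟩, hl3⟩)
  have hgap : ∀ l, i < l → l < j → ¬ r x (q l) := by
    intro l hl1 hl2 hl3
    rcases Nat.lt_trichotomy l (Y + n) with h | h | h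
    · have := himax l (by omega) h hl3; omega
    · subst h; apply hxy; rw [← hYn]; exact hl3
    · have := hjmin l h (by omega) hl3; omega
  have hji : j < i + n := by
    obtain ⟨x', hx', hxx'⟩ := hx2
    obtain ⟨X, hX1, hX2, hX3⟩ := hrep (Y + n) x
    obtain ⟨X', hX1', hX2', hX3'⟩ := hrep (Y + n) x'
    have hne : X ≠ X' := by rintro rfl; exact hx' (by rw [← hX3', hX3])
    have key : ∀ Z z, Y + n ≤ Z → Z < Y + n + n → q Z = z → r x z → Z ≠ i + n → j < i + n := by
      intro Z z hZ1 hZ2 hZ3 hZ4 hZ5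
      have h1 : Z ≠ Y + n := by
        rintro rfl
        apply hxy; rw [← hYn, hZ3]; exact hZ4
      have h2 : Z - n ≤ i := by
        apply himax (Z - n) (by omega) (by omega)
        rw [← qper L hinj hpq, show Z - n + n = Z by omega, hZ3]
        exact hZ4
      have h3 := hjmin Z (by omega) hZ2 (by rw [hZ3]; exact hZ4)
      omega
    by_cases hXi : X = i + n
    · exact key X' x' hX1' hX2' hX3' hxx' (by omega)
    · exact key X x hX1 hX2 hX3 (r.refl x) hXi
  have hij : r (q i) (q j) := r.trans (r.symm hi3) hj3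
  have hnorun : ¬ Run p i j := by
    apply h2 i j (by omega) hji hij
    intro m hm1 hm2 hm3
    exact hgap m hm1 hm2 (r.trans hi3 hm3)
  -- location of the class of `y`
  have hB' : ∀ z, r y z → ∃ m, i < m ∧ m < j ∧ q m = z := by
    intro z hz
    obtain ⟨m, hm1, hm2, hm3⟩ := hrep i z
    have h4 : ∀ k, r x (q k) → m ≠ k := by
      rintro k hk rfl
      apply hxy
      rw [hm3] at hk
      exact r.trans hk (r.symm hz)
    have h5 := h4 i hi3
    have h6 := h4 j hj3
    refine ⟨m, by omega, ?_, hm3⟩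
    by_contra hcon
    have := h1 i (Y + n) j m (by omega) (by omega) (by omega) hm2 hij (by rw [hYn, hm3]; exact hz)
    apply hxy
    rw [hYn] at this
    exact r.trans hi3 this
  have hB : ∀ z, r x z → ∃ m, j ≤ m ∧ m ≤ i + n ∧ q m = z := by
    intro z hz
    obtain ⟨m, hm1, hm2, hm3⟩ := hrep (i + 1) z
    refine ⟨m, ?_, by omega, hm3⟩
    by_contra hcon
    exact hgap m (by omega) (by omega) (by rw [hm3]; exact hz)
  -- signs of the functional
  have hgB : ∀ m, j ≤ m → m ≤ i + n → 0 ≤ det (p i) (p j) (p m) := fun m h1 h2 =>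
    L.O i j m (by omega) h1 h2
  have hgB' : ∀ m, i < m → m < j → det (p i) (p j) (p m) ≤ 0 := by
    intro m h1 h2
    have h3 := L.O i m j (by omega) (by omega) (by omega)
    have : det (p i) (p m) (p j) = - det (p i) (p j) (p m) := by unfold det; ring
    linarith
  have hhull : hull pt r x ⊆ {w | - det (p i) (p j) w ≤ 0} := by
    apply convexHull_min
    · rintro _ ⟨z, hz, rfl⟩
      obtain ⟨m, hm1, hm2, hm3⟩ := hB z hz
      simp only [Set.mem_setOf_eq]
      rw [← hm3, hpq]
      linarith [hgB m hm1 hm2]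
    · apply convex_le
      intro u v a b hab
      rw [det_aff _ _ _ _ _ _ hab]
      ring
  -- trichotomy
  have htri : ∀ m, i < m → m < j → det (p i) (p j) (p m) = 0 → Run p m (i + n) ∨ Run p j (m + n) := by
    intro m hm1 hm2 hm3
    have : det (p i) (p m) (p j) = 0 := by
      have : det (p i) (p m) (p j) = - det (p i) (p j) (p m) := by unfold det; ring
      rw [this, hm3, neg_zero]
    rcases L.tri hm1 hm2 hji this with h | h | h
    · exact absurd h hnorun
    · left; exact h
    · right; exact h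
  have hmixed : ∀ m m', i < m → m < j → i < m' → m' < j → r y (q m) → r y (q m') →
      Run p m (i + n) → Run p j (m' + n) → False := by
    intro m m' hm1 hm2 hm1' hm2' hm3 hm3' hr hr'
    have hr2 : Run p m (m' + n) := by
      intro l hl1 hl2
      by_cases h : l < i + n
      · exact hr l hl1 h
      · exact hr' l (by omega) hl2
    by_cases hmm : m ≤ m'
    · exact L.noflat (by omega) hr2
    · let S := (Finset.Ioo i j).filter (fun l => r y (q l))
      have hmS : m ∈ S := by
        rw [Finset.mem_filter, Finset.mem_Ioo]; exact ⟨⟨hm1, hm2⟩, hm3⟩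
      have hmS' : m' ∈ S := by
        rw [Finset.mem_filter, Finset.mem_Ioo]; exact ⟨⟨hm1', hm2'⟩, hm3'⟩
      obtain ⟨a, ha, hamax⟩ := Finset.exists_max_image S id ⟨m, hmS⟩
      obtain ⟨b, hb, hbmin⟩ := Finset.exists_min_image S id ⟨m, hmS⟩
      have h5 := hamax m hmS
      have h6 := hbmin m' hmS'
      simp only [id] at h5 h6 hamax hbmin
      rw [Finset.mem_filter, Finset.mem_Ioo] at ha hb
      have h7 : r (q a) (q (b + n)) := by
        rw [qper L hinj hpq]
        exact r.trans (r.symm ha.2) hb.2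
      refine h2 a (b + n) (by omega) (by omega) h7 ?_ (fun l h8 h9 => hr2 l (by omega) (by omega))
      intro l hl1 hl2 hl3
      have hl4 : r y (q l) := r.trans ha.2 hl3
      rcases Nat.lt_or_ge l j with h | h
      · have := hamax l (by rw [Finset.mem_filter, Finset.mem_Ioo]; exact ⟨⟨by omega, h⟩, hl4⟩)
        omega
      · rcases Nat.lt_or_ge (i + n) l with h' | h'
        · have := hbmin (l - n) (by
            rw [Finset.mem_filter, Finset.mem_Ioo]
            refine ⟨⟨by omega, by omega⟩, ?_⟩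
            rw [← qper L hinj hpq, show l - n + n = l by omega]
            exact hl4)
          omega
        · obtain ⟨k, hk1, hk2, hk3⟩ := hB' _ hl4
          exact q_ne L hinj hpq (show k < l by omega) (by omega) hk3
  -- the final separation
  have hfinal : ∀ h : ℝ × ℝ → ℝ,
      (∀ (x y : ℝ × ℝ) (a b : ℝ), a + b = 1 → h (a • x + b • y) = a * h x + b * h y) →
      (∀ m, i < m → m < j → r y (q m) → det (p i) (p j) (p m) = 0 → 0 < h (p m)) →
      (∀ m, j ≤ m → m ≤ i + n → h (p m) ≤ 0) → Disjoint (hull pt r x) (hull pt r y) := by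
    intro h haff hpos hneg
    rw [Set.disjoint_left]
    intro z hz1 hz2
    have h3 : z ∈ {w | det (p i) (p j) w < 0 ∨ (det (p i) (p j) w = 0 ∧ 0 < h w)} := by
      refine convexHull_min ?_ (convex_lex _ _ (det_aff _ _) haff) hz2
      rintro _ ⟨w, hw, rfl⟩
      obtain ⟨m, hm1, hm2, hm3⟩ := hB' w hw
      simp only [Set.mem_setOf_eq]
      rw [← hm3, hpq]
      rcases (hgB' m hm1 hm2).lt_or_eq with h | h
      · left; exact h
      · right; exact ⟨h, hpos m hm1 hm2 (by rw [hm3]; exact hw) h⟩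
    have h4 := hhull hz1
    simp only [Set.mem_setOf_eq] at h3 h4
    have h5 : z ∈ {w | h w ≤ 0} := by
      refine convexHull_min ?_ (convex_le _ haff) hz1
      rintro _ ⟨w, hw, rfl⟩
      obtain ⟨m, hm1, hm2, hm3⟩ := hB w hw
      simp only [Set.mem_setOf_eq]
      rw [← hm3, hpq]
      exact hneg m hm1 hm2
    simp only [Set.mem_setOf_eq] at h5
    rcases h3 with h3 | h3
    · linarith
    · linarith [h3.2]
  by_cases hβ : ∃ m, i < m ∧ m < j ∧ r y (q m) ∧ Run p m (i + n)
  · obtain ⟨m0, hm1, hm2, hm3, hm4⟩ := hβ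
    apply hfinal (ip (p i) (p j)) (ip_aff _ _)
    · intro m h3 h4 h5 h6
      rcases htri m h3 h4 h6 with h7 | h7
      · apply ip_pos
        · have := L.A h7 (show m ≤ j by omega) (show j ≤ i + n by omega) (by omega)
          rwa [L.per] at this
        · exact (L.inj m j h4 (by omega)).symm
        · exact (L.inj i j (by omega) hji).symm
      · exact (hmixed m0 m hm1 hm2 h3 h4 hm3 h5 hm4 h7).elim
    · intro m h3 h4
      apply ip_nonpos
      have hr : Run p j (i + n) := fun l h5 h6 => hm4 l (by omega) h6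
      have := L.A hr h3 h4 (by omega)
      rwa [L.per] at this
  · by_cases hγ : ∃ m, i < m ∧ m < j ∧ r y (q m) ∧ Run p j (m + n)
    · obtain ⟨m0, hm1, hm2, hm3, hm4⟩ := hγ
      apply hfinal (ip (p j) (p i)) (ip_aff _ _)
      · intro m h3 h4 h5 h6
        rcases htri m h3 h4 h6 with h7 | h7
        · exact absurd ⟨m, h3, h4, h5, h7⟩ hβ
        · apply ip_pos
          · have := L.A h7 (show j ≤ i + n by omega) (show i + n ≤ m + n by omega) (by omega)
            rw [L.per, L.per, segment_symm] at this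
            exact this
          · exact L.inj i m h3 (by omega)
          · exact L.inj i j (by omega) hji
      · intro m h3 h4
        apply ip_nonpos
        have hr : Run p j (i + n) := fun l h5 h6 => hm4 l h5 (by omega)
        have := L.A hr h3 h4 (by omega)
        rw [L.per, segment_symm] at this
        exact this
    · apply hfinal (fun _ => 0) (by intros; ring)
      · intro m h3 h4 h5 h6
        rcases htri m h3 h4 h6 with h7 | h7
        · exact absurd ⟨m, h3, h4, h5, h7⟩ hβ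
        · exact absurd ⟨m, h3, h4, h5, h7⟩ hγ
      · intro m _ _; exact le_refl _

end main

end V11176.NCB
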