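import Pool.Agent.V11176.NCB.Geom2

set_option autoImplicit false

open Finset

namespace V11176.NCB

section cross
variable {n : ℕ} {p : ℕ → ℝ × ℝ} (L : Lab n p)
include L

theorem Lab.cross {a b c d : ℕ} (hab : a < b) (hbc : b < c) (hcd : c < d) (hd : d < a + n) :
    ∃ z, z ∈ segment ℝ (p a) (p c) ∧ z ∈ segment ℝ (p b) (p d) := by
  have hn := L.hn
  by_cases h0 : det (p a) (p b) (p c) = 0
  · rcases L.tri hab hbc (by omega) h0 with h | h | h
    · exact ⟨p b, L.A h hab.le hbc.le (by omega), left_mem_segment _ _ _⟩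
    · refine ⟨p c, right_mem_segment _ _ _, ?_⟩
      have h' : Run p b d := fun l h1 h2 => h l h1 (by omega)
      exact L.A h' hbc.le hcd.le (by omega)
    · refine ⟨p a, left_mem_segment _ _ _, ?_⟩
      have h' : Run p d (b + n) := fun l h1 h2 => h l (by omega) h2
      have := L.A h' (show d ≤ a + n by omega) (show a + n ≤ b + n by omega) (by omega)
      rw [L.per, L.per, segment_symm] at this
      exact this
  · have h1 : 0 < det (p a) (p b) (p c) :=
      lt_of_le_of_ne (L.O a b c hab.le hbc.le (by omega)) (Ne.symm h0)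
    have h2 : 0 ≤ det (p a) (p c) (p d) := L.O a c d (by omega) hcd.le (by omega)
    have h3 : 0 ≤ det (p a) (p b) (p d) := L.O a b d hab.le (by omega) (by omega)
    have h4 : 0 ≤ det (p b) (p c) (p d) := L.O b c d hbc.le hcd.le (by omega)
    have h5 : det (p a) (p b) (p c) + det (p a) (p c) (p d) =
        det (p a) (p b) (p d) + det (p b) (p c) (p d) := by unfold det; ring
    have hT : 0 < det (p a) (p b) (p c) + det (p a) (p c) (p d) := by linarith
    refine ⟨p b + (det (p a) (p b) (p c) / (det (p a) (p b) (p c) + det (p a) (p c) (p d))) •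
      (p d - p b), ?_, ?_⟩
    · rw [mem_seg]
      refine ⟨det (p a) (p b) (p d) / (det (p a) (p b) (p c) + det (p a) (p c) (p d)), by positivity,
        ?_, ?_⟩
      · rw [div_le_one hT]; linarith
      · have hT' := hT.ne'
        ext
        · simp only [Prod.fst_add, Prod.smul_fst, Prod.fst_sub, smul_eq_mul]
          field_simp
          unfold det
          ring
        · simp only [Prod.snd_add, Prod.smul_snd, Prod.snd_sub, smul_eq_mul]
          field_simp
          unfold det
          ring
    · rw [mem_seg]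
      refine ⟨_, by positivity, ?_, rfl⟩
      rw [div_le_one hT]; linarith

theorem Lab.flat_perm {l : ℕ} (hl : 1 ≤ l) (c : ℕ) : flat p (l + c * n) ↔ flat p l := by
  induction c with
  | zero => simp
  | succ c ih =>
    rw [Nat.succ_mul, ← Nat.add_assoc, L.flat_per (by omega), ih]

end cross

section main
variable {α : Type} {n : ℕ} {p : ℕ → ℝ × ℝ} (L : Lab n p) {pt : α → ℝ × ℝ} {q : ℕ → α}
  (hinj : Function.Injective pt) (hpq : ∀ i, pt (q i) = p i) (hsurj : ∀ x, ∃ i, q i = x)
  (h0 : ¬ flat p n) {K : Finset ℕ} (hK : ∀ k, k ∈ K ↔ 0 < k ∧ k < n ∧ ¬ flat p k)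
include L hinj hpq

theorem c1_of_cond {r : Setoid α} (hc : Cond n q (RK K) r) : C1 n q r := by
  intro a b c d hab hbc hcd hd hr1 hr2
  have hn := L.hn
  -- reduce to `a < n`
  have hshift : ∀ i, q (i + (a / n) * n) = q i := fun i => qperm L hinj hpq i _
  have ha0 : a / n * n ≤ a := Nat.div_mul_le_self a n
  have ha1 : a < a / n * n + n := by
    have h1 := Nat.mod_add_div' a n
    have h2 := Nat.mod_lt a (show 0 < n by omega)
    omega
  generalize a / n * n = s at hshift ha0 ha1
  obtain ⟨a, rfl⟩ : ∃ a', a = a' + s := ⟨a - s, by omega⟩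
  obtain ⟨b, rfl⟩ : ∃ b', b = b' + s := ⟨b - s, by omega⟩
  obtain ⟨c, rfl⟩ : ∃ c', c = c' + s := ⟨c - s, by omega⟩
  obtain ⟨d, rfl⟩ : ∃ d', d = d' + s := ⟨d - s, by omega⟩
  rw [hshift] at hr1 hr2 ⊢
  rw [hshift] at hr1 hr2 ⊢
  by_cases hdn : d ≤ n
  · exact hc.1 a b c d (by omega) (by omega) (by omega) hdn hr1 hr2
  · obtain ⟨d, rfl⟩ : ∃ d', d = d' + n := ⟨d - n, by omega⟩
    rw [qper L hinj hpq] at hr2
    by_cases hcn : c ≤ n
    · have := hc.1 d a b c (by omega) (by omega) (by omega) hcn (r.symm hr2) hr1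
      exact r.trans (r.symm this) (r.symm hr2)
    · obtain ⟨c, rfl⟩ : ∃ c', c = c' + n := ⟨c - n, by omega⟩
      rw [qper L hinj hpq] at hr1
      by_cases hbn : b ≤ n
      · have := hc.1 c d a b (by omega) (by omega) (by omega) hbn (r.symm hr1) (r.symm hr2)
        exact r.trans hr1 (r.trans this (r.symm hr2))
      · obtain ⟨b, rfl⟩ : ∃ b', b = b' + n := ⟨b - n, by omega⟩
        rw [qper L hinj hpq] at hr2 ⊢
        have := hc.1 b c d a (by omega) (by omega) (by omega) (by omega) hr2 (r.symm hr1)
        exact r.trans hr1 (r.symm this)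

include h0 hK

theorem c2_of_cond {r : Setoid α} (hc : Cond n q (RK K) r) : C2 n p q r := by
  intro i j hij hj hr hgap hrun
  have hn := L.hn
  have hshift : ∀ l, q (l + (i / n) * n) = q l := fun l => qperm L hinj hpq l _
  have hshift2 : ∀ l, 1 ≤ l → (flat p (l + (i / n) * n) ↔ flat p l) := fun l hl => L.flat_perm hl _
  have ha0 : i / n * n ≤ i := Nat.div_mul_le_self i n
  have ha1 : i < i / n * n + n := by
    have h1 := Nat.mod_add_div' i n
    have h2 := Nat.mod_lt i (show 0 < n by omega)
    omega
  generalize i / n * n = s at hshift hshift2 ha0 ha1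
  obtain ⟨i, rfl⟩ : ∃ a', i = a' + s := ⟨i - s, by omega⟩
  obtain ⟨j, rfl⟩ : ∃ b', j = b' + s := ⟨j - s, by omega⟩
  rw [hshift] at hr hgap
  rw [hshift] at hr
  by_cases hjn : j ≤ n
  · rcases hc.2 i j (by omega) hjn hr (fun m h1 h2 h3 => hgap (m + s) (by omega) (by omega)
      (by rw [hshift]; exact h3)) with h | ⟨k, hk, h1, h2⟩
    · omega
    · rw [hK] at hk
      exact hk.2.2 ((hshift2 k (by omega)).1 (hrun (k + s) (by omega) (by omega)))
  · exact h0 ((hshift2 n (by omega)).1 (hrun (n + s) (by omega) (by omega)))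

include hsurj

theorem nc_iff (r : Setoid α) : (∀ x y, ¬ r x y → Disjoint (hull pt r x) (hull pt r y)) ↔
    Cond n q (RK K) r := by
  have hn := L.hn
  constructor
  · intro hnc
    have hsub : ∀ a b : ℕ, r (q a) (q b) → ∀ z, z ∈ segment ℝ (p a) (p b) → z ∈ hull pt r (q a) := by
      intro a b hab z hz
      have h1 : p a ∈ hull pt r (q a) := subset_convexHull _ _ ⟨q a, r.refl _, hpq a⟩
      have h2 : p b ∈ hull pt r (q a) := subset_convexHull _ _ ⟨q b, hab, hpq b⟩
      exact (convex_convexHull ℝ _).segment_subset h1 h2 hz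
    constructor
    · intro a b c d hab hbc hcd hd hr1 hr2
      by_cases hdn : d < a + n
      · by_contra hcon
        obtain ⟨z, hz1, hz2⟩ := L.cross hab hbc hcd hdn
        exact Set.disjoint_left.1 (hnc _ _ hcon) (hsub a c hr1 z hz1) (hsub b d hr2 z hz2)
      · have ha : a = 0 := by omega
        have hd' : d = 0 + n := by omega
        subst ha hd'
        rw [qper L hinj hpq] at hr2
        exact r.symm hr2
    · intro i j hij hj hr hgap
      by_contra hcon
      unfold RK at hcon
      push Not at hcon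
      obtain ⟨h1, h2⟩ := hcon
      have hrun : Run p i j := by
        intro l hl1 hl2
        by_contra hl
        exact absurd hl2 (not_lt.2 (h2 l ((hK l).2 ⟨by omega, by omega, hl⟩) hl1))
      by_cases hjn : j < i + n
      · have h3 := L.A hrun (show i ≤ i + 1 by omega) (show i + 1 ≤ j by omega) hjn
        have h4 := hsub i j hr _ h3
        have h5 : p (i + 1) ∈ hull pt r (q (i + 1)) :=
          subset_convexHull _ _ ⟨q (i + 1), r.refl _, hpq _⟩
        exact Set.disjoint_left.1 (hnc _ _ (hgap (i + 1) (by omega) (by omega))) h4 h5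
      · exact L.noflat (by omega) hrun
  · intro hc x y hxy
    have hC1 := c1_of_cond L hinj hpq hc
    have hC2 := c2_of_cond L hinj hpq h0 hK hc
    by_cases hx : ∃ x', x' ≠ x ∧ r x x'
    · exact main_disj L hinj hpq hsurj hC1 hC2 hxy hx
    · by_cases hy : ∃ y', y' ≠ y ∧ r y y'
      · exact (main_disj L hinj hpq hsurj hC1 hC2 (fun h => hxy (r.symm h)) hy).symm
      · have hx' : {z | r x z} = {x} := by
          ext z
          simp only [Set.mem_setOf_eq, Set.mem_singleton_iff]
          constructor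
          · intro hz
            by_contra hne
            exact hx ⟨z, hne, hz⟩
          · rintro rfl; exact r.refl _
        have hy' : {z | r y z} = {y} := by
          ext z
          simp only [Set.mem_setOf_eq, Set.mem_singleton_iff]
          constructor
          · intro hz
            by_contra hne
            exact hy ⟨z, hne, hz⟩
          · rintro rfl; exact r.refl _
        unfold hull
        rw [hx', hy', Set.image_singleton, Set.image_singleton, convexHull_singleton,
          convexHull_singleton, Set.disjoint_singleton]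
        intro h
        exact hxy (by rw [hinj h])

end main

section sides
variable {n : ℕ} {p : ℕ → ℝ × ℝ} (L : Lab n p)
include L

/-- if `p 0` is not between two other points then index `n` is a corner -/
theorem Lab.corner0 (h : ∀ i j, p 0 ∈ segment ℝ (p i) (p j) → p i = p 0 ∨ p j = p 0) : ¬ flat p n := by
  have hn := L.hn
  intro hf
  have hrun : Run p (n - 1) (n + 1) := by
    intro l h1 h2
    have : l = n := by omega
    rw [this]; exact hf
  have h1 := L.A hrun (show n - 1 ≤ n by omega) (show n ≤ n + 1 by omega) (by omega)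
  have h2 : p n = p 0 := by
    have := L.per 0
    rwa [Nat.zero_add] at this
  rw [h2] at h1
  rcases h _ _ h1 with h3 | h3
  · exact L.inj (n - 1) n (by omega) (by omega) (by rw [h2, h3])
  · exact L.inj n (n + 1) (by omega) (by omega) (by rw [h2, h3])

/-- no two consecutive corners -/
theorem Lab.no_consec (hside : ∀ a b, (∀ c, 0 ≤ det (p a) (p b) (p c)) → p a ≠ p b →
    ∃ c, p c ≠ p a ∧ p c ≠ p b ∧ det (p a) (p b) (p c) = 0) {m : ℕ} (hm : 1 ≤ m)
    (h1 : ¬ flat p m) (h2 : ¬ flat p (m + 1)) : False := by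
  have hn := L.hn
  obtain ⟨c, hc1, hc2, hc3⟩ := hside m (m + 1) (by
    intro c
    obtain ⟨c', h3, h4, h5⟩ := L.rep m c
    rw [← h5]
    rcases Nat.eq_or_lt_of_le h3 with rfl | h6
    · have : det (p m) (p (m + 1)) (p m) = 0 := by unfold det; ring
      rw [this]
    · exact L.O _ _ _ (by omega) (by omega) (by omega)) (L.inj _ _ (by omega) (by omega))
  obtain ⟨k, hk1, hk2, hk3⟩ := L.rep m c
  rw [← hk3] at hc1 hc2 hc3
  have hk4 : m ≠ k := by rintro rfl; exact hc1 rfl
  have hk5 : m + 1 ≠ k := by rintro rfl; exact hc2 rfl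
  rcases L.tri (show m < m + 1 by omega) (show m + 1 < k by omega) hk2 hc3 with h | h | h
  · exact h2 (h (m + 1) (by omega) (by omega))
  · -- `Run (m+1) (m+n)`
    have h3 : p k ∈ segment ℝ (p (m + 1)) (p (m + n)) := L.A h (by omega) (by omega) (by omega)
    -- all the points are on a line
    have h4 : ∀ l, m + 1 ≤ l → l ≤ m + n → det (p (m + 1)) (p (m + 1 + 1)) (p l) = 0 :=
      fun l h5 h6 => L.col' h h5 h6
    obtain ⟨x, y, z, hxyz⟩ := L.nc
    obtain ⟨x', hx1, hx2, hx3⟩ := L.rep (m + 1) x
    obtain ⟨y', hy1, hy2, hy3⟩ := L.rep (m + 1) y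
    obtain ⟨z', hz1, hz2, hz3⟩ := L.rep (m + 1) z
    apply hxyz
    rw [← hx3, ← hy3, ← hz3]
    exact col_of_line (L.inj (m + 1) (m + 1 + 1) (by omega) (by omega)) (h4 _ hx1 (by omega))
      (h4 _ hy1 (by omega)) (h4 _ hz1 (by omega))
  · have h3 := h (m + n) (by omega) (by omega)
    rw [L.flat_per hm] at h3
    exact h1 h3

end sides

end V11176.NCB
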