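import Pool.Agent.V11176.NCB.Enum

set_option autoImplicit false

open Finset

namespace V11176.NCB

/-- noncrossing: distinct blocks have disjoint convex hulls -/
def IsNoncrossing {P : Finset (ℝ × ℝ)} (r : Setoid P) : Prop :=
  ∀ x y : P, ¬ r x y → Disjoint (convexHull ℝ (Subtype.val '' {z : P | r x z}))
    (convexHull ℝ (Subtype.val '' {z : P | r y z}))

/-- the noncrossing partitions of `P`, ordered by refinement -/
def NC (P : Finset (ℝ × ℝ)) : Type := {r : Setoid P // IsNoncrossing r}

instance (P : Finset (ℝ × ℝ)) : PartialOrder (NC P) :=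
  inferInstanceAs (PartialOrder {r : Setoid P // IsNoncrossing r})

section card
variable {α : Type} [Finite α]

theorem card_lt_of_lt {r s : Setoid α} (h : r < s) :
    Nat.card (Quotient s) < Nat.card (Quotient r) := by
  have hle : ∀ x y, r x y → s x y := fun x y hxy => h.le hxy
  let f : Quotient r → Quotient s := Quotient.map' id (fun x y hxy => hle x y hxy)
  have hf : Function.Surjective f := by
    intro c
    obtain ⟨x, rfl⟩ := Quotient.exists_rep c
    exact ⟨Quotient.mk r x, rfl⟩
  by_contra hcon
  push Not at hcon
  have hb : Function.Bijective f := hf.bijective_of_nat_card_le hcon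
  apply h.not_ge
  intro x y hxy
  have h1 : f (Quotient.mk r x) = f (Quotient.mk r y) := Quotient.sound hxy
  exact Quotient.exact (hb.1 h1)

theorem card_quot_le (r : Setoid α) : Nat.card (Quotient r) ≤ Nat.card α :=
  Nat.card_le_card_of_surjective (Quotient.mk r) Quotient.mk_surjective

/-- split off a point -/
def split (r : Setoid α) (v : α) : Setoid α where
  r x y := x = y ∨ (r x y ∧ x ≠ v ∧ y ≠ v)
  iseqv := by
    refine ⟨fun x => Or.inl rfl, ?_, ?_⟩
    · rintro x y (h | ⟨h1, h2, h3⟩)
      · exact Or.inl h.symm
      · exact Or.inr ⟨r.symm h1, h3, h2⟩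
    · rintro x y z (rfl | ⟨h1, h2, h3⟩) (rfl | ⟨h4, h5, h6⟩)
      · exact Or.inl rfl
      · exact Or.inr ⟨h4, h5, h6⟩
      · exact Or.inr ⟨h1, h2, h3⟩
      · exact Or.inr ⟨r.trans h1 h4, h2, h6⟩

theorem split_iff {r : Setoid α} {v x y : α} : split r v x y ↔ x = y ∨ (r x y ∧ x ≠ v ∧ y ≠ v) :=
  Iff.rfl

theorem split_lt {r : Setoid α} {v w : α} (hw : w ≠ v) (h : r v w) : split r v < r := by
  rw [lt_iff_le_not_ge]
  constructor
  · rintro x y (rfl | h)
    · exact r.refl _
    · exact h.1
  · intro hle
    have : split r v v w := hle h
    rcases this with h1 | h1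
    · exact hw h1.symm
    · exact h1.2.1 rfl

open Classical in
theorem card_split (r : Setoid α) (v : α) :
    Nat.card (Quotient (split r v)) ≤ Nat.card (Quotient r) + 1 := by
  rw [← Finite.card_option]
  let f : Quotient (split r v) → Option (Quotient r) :=
    Quotient.lift (fun x => if x = v then none else some (Quotient.mk r x)) (by
      rintro x y (h | ⟨h1, h2, h3⟩)
      · rw [h]
      · rw [if_neg h2, if_neg h3]
        congr 1
        exact Quotient.sound h1)
  apply Nat.card_le_card_of_injective f
  intro a b
  obtain ⟨x, rfl⟩ := Quotient.exists_rep a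
  obtain ⟨y, rfl⟩ := Quotient.exists_rep b
  intro h
  change (if x = v then none else some (Quotient.mk r x)) =
    (if y = v then none else some (Quotient.mk r y)) at h
  by_cases hx : x = v
  · by_cases hy : y = v
    · rw [hx, hy]
    · rw [if_pos hx, if_neg hy] at h
      exact absurd h (by simp)
  · by_cases hy : y = v
    · rw [if_neg hx, if_pos hy] at h
      exact absurd h (by simp)
    · rw [if_neg hx, if_neg hy, Option.some.injEq] at h
      apply Quotient.sound
      exact Or.inr ⟨Quotient.exact h, hx, hy⟩

end card

section height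
variable {P : Finset (ℝ × ℝ)}

theorem ncard_quot_le (r : Setoid P) : Nat.card (Quotient r) ≤ P.card := by
  have := card_quot_le r
  rwa [Nat.card_eq_fintype_card (α := P), Fintype.card_coe] at this

/-- splitting off a point of maximal norm of a block preserves the noncrossing property -/
theorem split_nc {r : Setoid P} (hr : IsNoncrossing r) {v : P}
    (hv : ∀ w, r v w → w.1.1 ^ 2 + w.1.2 ^ 2 ≤ v.1.1 ^ 2 + v.1.2 ^ 2) :
    IsNoncrossing (split r v) := by
  -- the class of `v` against another class
  have key : ∀ y : P, ¬ split r v v y → Disjoint (convexHull ℝ (Subtype.val '' {z : P | split r v v z}))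
      (convexHull ℝ (Subtype.val '' {z : P | split r v y z})) := by
    intro y hy
    have hvy : v ≠ y := fun h => hy (Or.inl h)
    have h1 : {z : P | split r v v z} = {v} := by
      ext z
      rw [Set.mem_setOf_eq, Set.mem_singleton_iff]
      constructor
      · rintro (h | h)
        · exact h.symm
        · exact absurd rfl h.2.1
      · rintro rfl
        exact Or.inl rfl
    rw [h1, Set.image_singleton, convexHull_singleton, Set.disjoint_singleton_left]
    intro hmem
    by_cases hrvy : r v y
    · have h2 : v.1 ∈ {w : ℝ × ℝ | FF v.1 w < 0 ∨ (FF v.1 w = 0 ∧ 0 < (fun _ => (0 : ℝ)) w)} ∪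
          {w | 0 < FF v.1 w} := by
        right
        refine convexHull_min ?_ ?_ hmem
        · rintro _ ⟨z, hz, rfl⟩
          have hz' : z ≠ v := by
            rintro rfl
            rcases hz with h | h
            · exact hvy h.symm
            · exact h.2.2 rfl
          have hz2 : r v z := by
            rcases hz with h | h
            · rw [← h]; exact hrvy
            · exact r.trans hrvy h.1
          exact ff_pos (hv z hz2) (fun h => hz' (Subtype.ext h))
        · intro x hx y hy a b ha hb hab
          simp only [Set.mem_setOf_eq] at hx hy ⊢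
          have : FF v.1 (a • x + b • y) = a * FF v.1 x + b * FF v.1 y := by
            have : b = 1 - a := by linarith
            subst this
            unfold FF; simp; ring
          rw [this]
          rcases ha.eq_or_lt with rfl | ha
          · have : b = 1 := by linarith
            subst this
            simpa using hy
          · have h1 : 0 < a * FF v.1 x := by positivity
            have h2 : 0 ≤ b * FF v.1 y := by positivity
            linarith
      have h3 : FF v.1 v.1 = 0 := by unfold FF; ring
      rcases h2 with (h2 | h2) | h2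
      · linarith
      · exact lt_irrefl _ h2.2
      · have h2' : 0 < FF v.1 v.1 := h2
        linarith
    · have h2 := hr v y hrvy
      have h4 : v.1 ∈ convexHull ℝ (Subtype.val '' {z : P | r v z}) :=
        subset_convexHull _ _ ⟨v, r.refl _, rfl⟩
      have h5 : v.1 ∈ convexHull ℝ (Subtype.val '' {z : P | r y z}) := by
        refine convexHull_mono ?_ hmem
        apply Set.image_mono
        rintro z (h | h)
        · rw [← h]; exact r.refl _
        · exact h.1
      exact Set.disjoint_left.1 h2 h4 h5
  intro x y hxy
  by_cases hx : x = v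
  · subst hx; exact key y hxy
  by_cases hy : y = v
  · subst hy; exact (key x (fun h => hxy ((split r y).symm h))).symm
  · have hrxy : ¬ r x y := fun h => hxy (Or.inr ⟨h, hx, hy⟩)
    refine (hr x y hrxy).mono ?_ ?_
    · apply convexHull_mono
      apply Set.image_mono
      rintro z (h | h)
      · rw [← h]; exact r.refl _
      · exact h.1
    · apply convexHull_mono
      apply Set.image_mono
      rintro z (h | h)
      · rw [← h]; exact r.refl _
      · exact h.1

theorem height_le (x : NC P) : Order.height x ≤ ((P.card - Nat.card (Quotient x.1) : ℕ) : ℕ∞) := by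
  have hmono : StrictMono (fun x : NC P => P.card - Nat.card (Quotient x.1)) := by
    intro x y hxy
    have h1 : Nat.card (Quotient y.1) < Nat.card (Quotient x.1) := card_lt_of_lt hxy
    have h2 := ncard_quot_le x.1
    simp only
    omega
  have := Order.height_le_height_apply_of_strictMono _ hmono x
  rwa [Order.height_nat] at this

theorem le_height : ∀ k : ℕ, ∀ x : NC P, P.card - Nat.card (Quotient x.1) = k →
    (k : ℕ∞) ≤ Order.height x := by
  intro k
  induction k using Nat.strong_induction_on with
  | _ k ih =>
  intro x hx
  rcases Nat.eq_zero_or_pos k with rfl | hk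
  · simp
  · -- a block with at least two points
    have hex : ∃ a b : P, a ≠ b ∧ x.1 a b := by
      by_contra hcon
      push Not at hcon
      have hinj : Function.Injective (Quotient.mk x.1) := by
        intro a b hab
        by_contra hne
        exact hcon a b hne (Quotient.exact hab)
      have h1 := Nat.card_le_card_of_injective _ hinj
      rw [Nat.card_eq_fintype_card (α := P), Fintype.card_coe] at h1
      omega
    obtain ⟨a, b, hab, hrab⟩ := hex
    classical
    obtain ⟨v, hv, hvmax⟩ := Finset.exists_max_image (Finset.univ.filter (fun w : P => x.1 a w))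
      (fun w => w.1.1 ^ 2 + w.1.2 ^ 2) ⟨a, by simp⟩
    rw [Finset.mem_filter] at hv
    have hvmax' : ∀ w, x.1 v w → w.1.1 ^ 2 + w.1.2 ^ 2 ≤ v.1.1 ^ 2 + v.1.2 ^ 2 := by
      intro w hw
      exact hvmax w (by rw [Finset.mem_filter]; exact ⟨Finset.mem_univ _, x.1.trans hv.2 hw⟩)
    obtain ⟨w, hwv, hrw⟩ : ∃ w, w ≠ v ∧ x.1 v w := by
      by_cases h : a = v
      · exact ⟨b, by rintro rfl; exact hab h, by rw [← h]; exact hrab⟩
      · exact ⟨a, h, x.1.symm hv.2⟩
    let y : NC P := ⟨split x.1 v, split_nc x.2 hvmax'⟩
    have hyx : y < x := split_lt hwv hrw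
    have h1 : Nat.card (Quotient y.1) ≤ Nat.card (Quotient x.1) + 1 := card_split x.1 v
    have h2 : Nat.card (Quotient x.1) < Nat.card (Quotient y.1) := card_lt_of_lt hyx
    have h3 := ncard_quot_le y.1
    have h4 := ih (k - 1) (by omega) y (by omega)
    have h5 := Order.height_add_one_le hyx
    calc (k : ℕ∞) = ((k - 1 : ℕ) : ℕ∞) + 1 := by
          rw [← Nat.cast_succ]; congr 1; omega
      _ ≤ Order.height y + 1 := by gcongr
      _ ≤ Order.height x := h5

theorem height_eq (x : NC P) : Order.height x = ((P.card - Nat.card (Quotient x.1) : ℕ) : ℕ∞) :=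
  le_antisymm (height_le x) (le_height _ x rfl)

end height

end V11176.NCB
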